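import Mathlib

set_option autoImplicit false

open scoped ENNReal

namespace Pool.Agent.Helper91.CLR

/-- Property (U): asymptotic upper 2-estimate. -/
def PropU (E : Type) [NormedAddCommGroup E] [NormedSpace ℝ E] : Prop :=
  ∀ u : E, ∀ ε : ℝ, 0 < ε → ∃ F : Finset (E →L[ℝ] ℝ), ∀ y : E, (∀ g ∈ F, g y = 0) →
    ‖y‖ ≤ 1 → ‖u + y‖ ^ 2 ≤ ‖u‖ ^ 2 + ‖y‖ ^ 2 + ε

/-- AUS-ability exactly as in the frozen statement. -/
def AUSable (Y : Type) [NormedAddCommGroup Y] [NormedSpace ℝ Y] : Prop :=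
  ∃ N : Y → ℝ, (∀ x y, N (x + y) ≤ N x + N y) ∧ (∀ (a : ℝ) x, N (a • x) = |a| * N x) ∧
        (∃ c C : ℝ, 0 < c ∧ 0 < C ∧ ∀ x, c * ‖x‖ ≤ N x ∧ N x ≤ C * ‖x‖) ∧
        ∀ ε : ℝ, 0 < ε → ∃ δ : ℝ, 0 < δ ∧ ∀ t : ℝ, 0 < t → t < δ → ∀ x : Y, N x = 1 →
          ∃ F : Finset (Y →L[ℝ] ℝ), ∀ y : Y, (∀ g ∈ F, g y = 0) → N y ≤ t →
            N (x + y) ≤ 1 + ε * t

/-- Reflexivity exactly as in the frozen statement. -/
def Refl (Y : Type) [NormedAddCommGroup Y] [NormedSpace ℝ Y] : Prop :=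
  Function.Surjective (NormedSpace.inclusionInDoubleDual ℝ Y)

end Pool.Agent.Helper91.CLR
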