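import Mathlib
import Pool.Agent.Helper91.CLR.Defs

set_option autoImplicit false

open scoped ENNReal

namespace Pool.Agent.Helper91.CLR

/-- Sum of `|x|` over all suffixes of a list (the chain from the root `[]` to the node). -/
def S (x : List ℕ → ℝ) : List ℕ → ℝ
  | [] => |x []|
  | (n :: t) => |x (n :: t)| + S x t

theorem S_nonneg (x : List ℕ → ℝ) (t : List ℕ) : 0 ≤ S x t := by
  induction t with
  | nil => exact abs_nonneg _
  | cons n t ih => exact add_nonneg (abs_nonneg _) ih

theorem abs_le_S (x : List ℕ → ℝ) (t : List ℕ) : |x t| ≤ S x t := by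
  cases t with
  | nil => exact le_refl _
  | cons n t => exact le_add_of_nonneg_right (S_nonneg x t)

theorem S_add_le (x y : List ℕ → ℝ) (t : List ℕ) : S (x + y) t ≤ S x t + S y t := by
  induction t with
  | nil => exact abs_add_le _ _
  | cons n t ih =>
    simp only [S, Pi.add_apply]
    have := abs_add_le (x (n :: t)) (y (n :: t))
    linarith

theorem S_smul (a : ℝ) (x : List ℕ → ℝ) (t : List ℕ) : S (a • x) t = |a| * S x t := by
  induction t with
  | nil => simp [S, abs_mul]
  | cons n t ih => simp only [S, Pi.smul_apply, smul_eq_mul, abs_mul, ih]; ring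

theorem S_neg (x : List ℕ → ℝ) (t : List ℕ) : S (-x) t = S x t := by
  have := S_smul (-1) x t
  simpa using this

theorem S_zero (t : List ℕ) : S (0 : List ℕ → ℝ) t = 0 := by
  have := S_smul 0 0 t
  simpa using this

theorem S_le_of_le (x : List ℕ → ℝ) (c : ℝ) (hc : ∀ s, |x s| ≤ c) (t : List ℕ) :
    S x t ≤ (t.length + 1) * c := by
  induction t with
  | nil => simpa [S] using hc []
  | cons n t ih =>
    simp only [S, List.length_cons]
    have := hc (n :: t)
    push_cast
    linarith

/-- The underlying Hilbert space. -/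
abbrev H2 : Type := lp (fun _ : List ℕ => ℝ) 2

theorem H2_abs_le (x : H2) (s : List ℕ) : |(x : List ℕ → ℝ) s| ≤ ‖x‖ := by
  have := lp.norm_apply_le_norm (p := 2) (by norm_num) x s
  simpa [Real.norm_eq_abs] using this

/-- The supremum of the chain sums over nodes of length at most `k`. -/
noncomputable def NK (k : ℕ) (x : H2) : ℝ := ⨆ u : {u : List ℕ // u.length ≤ k}, S x u.1

instance (k : ℕ) : Nonempty {u : List ℕ // u.length ≤ k} := ⟨⟨[], by simp⟩⟩

theorem S_le_H2 (k : ℕ) (x : H2) (u : List ℕ) (hu : u.length ≤ k) :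
    S x u ≤ (k + 1) * ‖x‖ := by
  refine (S_le_of_le x ‖x‖ (H2_abs_le x) u).trans ?_
  have : (u.length : ℝ) ≤ k := by exact_mod_cast hu
  exact mul_le_mul_of_nonneg_right (by linarith) (norm_nonneg _)

theorem NK_bdd (k : ℕ) (x : H2) :
    BddAbove (Set.range fun u : {u : List ℕ // u.length ≤ k} => S x u.1) := by
  refine ⟨(k + 1) * ‖x‖, ?_⟩
  rintro _ ⟨u, rfl⟩
  exact S_le_H2 k x u.1 u.2

theorem S_le_NK (k : ℕ) (x : H2) (u : List ℕ) (hu : u.length ≤ k) : S x u ≤ NK k x :=
  le_ciSup (NK_bdd k x) ⟨u, hu⟩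

theorem NK_le (k : ℕ) (x : H2) (c : ℝ) (h : ∀ u : List ℕ, u.length ≤ k → S x u ≤ c) :
    NK k x ≤ c := ciSup_le fun u => h u.1 u.2

theorem NK_nonneg (k : ℕ) (x : H2) : 0 ≤ NK k x :=
  (S_nonneg x []).trans (S_le_NK k x [] (by simp))

/-- The space `X_k`: the Hilbert space `H2` renormed by `max (‖x‖) (NK k x)`. -/
def XK (_k : ℕ) : Type := H2

namespace XK

variable {k : ℕ}

noncomputable instance : AddCommGroup (XK k) := inferInstanceAs (AddCommGroup H2)
noncomputable instance : Module ℝ (XK k) := inferInstanceAs (Module ℝ H2)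

/-- The underlying vector of `H2`. -/
def toH2 : XK k →ₗ[ℝ] H2 where
  toFun x := x
  map_add' _ _ := rfl
  map_smul' _ _ := rfl

/-- Back. -/
def ofH2 : H2 →ₗ[ℝ] XK k where
  toFun x := x
  map_add' _ _ := rfl
  map_smul' _ _ := rfl

@[simp] theorem toH2_ofH2 (x : H2) : toH2 (ofH2 (k := k) x) = x := rfl
@[simp] theorem ofH2_toH2 (x : XK k) : ofH2 (toH2 x) = x := rfl

noncomputable instance : NormedAddCommGroup (XK k) :=
  AddGroupNorm.toNormedAddCommGroup
    { toFun := fun x => max ‖toH2 x‖ (NK k (toH2 x))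
      map_zero' := by
        have h : NK k 0 = 0 := by
          apply le_antisymm
          · refine NK_le k 0 0 fun u _ => ?_
            rw [lp.coeFn_zero, S_zero]
          · exact NK_nonneg k 0
        simp [h]
      add_le' := by
        intro x y
        rw [map_add]
        refine max_le ((norm_add_le _ _).trans (add_le_add (le_max_left _ _) (le_max_left _ _))) ?_
        refine NK_le k _ _ fun u hu => ?_
        refine (S_add_le _ _ u).trans (add_le_add ?_ ?_)
        · exact (S_le_NK k (toH2 x) u hu).trans (le_max_right _ _)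
        · exact (S_le_NK k (toH2 y) u hu).trans (le_max_right _ _)
      neg' := by
        intro x
        have h : NK k (toH2 (-x)) = NK k (toH2 x) := by
          unfold NK
          congr 1
          ext u
          rw [map_neg]
          exact S_neg _ _
        rw [h, map_neg, norm_neg]
      eq_zero_of_map_eq_zero' := by
        intro x hx
        have h : ‖toH2 x‖ ≤ 0 := hx ▸ le_max_left _ _
        exact norm_le_zero_iff.1 h }

theorem norm_def (x : XK k) : ‖x‖ = max ‖toH2 x‖ (NK k (toH2 x)) := rfl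

theorem norm_toH2_le (x : XK k) : ‖toH2 x‖ ≤ ‖x‖ := le_max_left _ _

theorem S_le_norm (x : XK k) (u : List ℕ) (hu : u.length ≤ k) : S (toH2 x) u ≤ ‖x‖ :=
  (S_le_NK k _ u hu).trans (le_max_right _ _)

theorem norm_le (x : XK k) (c : ℝ) (h1 : ‖toH2 x‖ ≤ c)
    (h2 : ∀ u : List ℕ, u.length ≤ k → S (toH2 x) u ≤ c) : ‖x‖ ≤ c :=
  max_le h1 (NK_le k _ c h2)

theorem abs_le_norm (x : XK k) (s : List ℕ) : |(toH2 x : List ℕ → ℝ) s| ≤ ‖x‖ :=
  (H2_abs_le _ s).trans (norm_toH2_le x)

noncomputable instance : NormedSpace ℝ (XK k) where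
  norm_smul_le a x := by
    refine norm_le _ _ ?_ ?_
    · rw [map_smul, norm_smul]
      exact mul_le_mul_of_nonneg_left (norm_toH2_le x) (norm_nonneg _)
    · intro u hu
      rw [map_smul]
      have := S_smul a (toH2 x : List ℕ → ℝ) u
      have h2 : S (((a • toH2 x : H2)) : List ℕ → ℝ) u = |a| * S (toH2 x) u := this
      rw [h2, Real.norm_eq_abs]
      exact mul_le_mul_of_nonneg_left (S_le_norm x u hu) (abs_nonneg _)

theorem norm_le_mul (x : XK k) : ‖x‖ ≤ (k + 1) * ‖toH2 x‖ := by
  refine norm_le _ _ ?_ (S_le_H2 k _)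
  have := norm_nonneg (toH2 x)
  have h2 : (0 : ℝ) ≤ k := Nat.cast_nonneg _
  nlinarith

/-- `XK k` is linearly homeomorphic to `H2`. -/
noncomputable def equivH2 (k : ℕ) : XK k ≃L[ℝ] H2 :=
  LinearEquiv.toContinuousLinearEquivOfBounds
    { toLinearMap := toH2, invFun := ofH2, left_inv := fun _ => rfl, right_inv := fun _ => rfl }
    1 (k + 1) (fun x => by rw [one_mul]; exact norm_toH2_le x) (fun x => norm_le_mul (ofH2 x))

instance : CompleteSpace (XK k) :=
  (completeSpace_congr (e := (equivH2 k).toLinearEquiv.toEquiv) (equivH2 k).isUniformEmbedding).2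
    inferInstance

end XK

end Pool.Agent.Helper91.CLR
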