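import Mathlib
import Pool.Agent.Helper91.CLR.XK

set_option autoImplicit false

open scoped ENNReal

namespace Pool.Agent.Helper91.CLR

/-- Chain sum from `t` up to `l ++ t` (both ends included). -/
def C (x : List ℕ → ℝ) (t : List ℕ) : List ℕ → ℝ
  | [] => |x t|
  | (n :: l) => |x (n :: (l ++ t))| + C x t l

theorem C_nonneg (x : List ℕ → ℝ) (t l : List ℕ) : 0 ≤ C x t l := by
  induction l with
  | nil => exact abs_nonneg _
  | cons n l ih => exact add_nonneg (abs_nonneg _) ih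

theorem S_append (x : List ℕ → ℝ) (t l : List ℕ) : S x (l ++ t) + |x t| = S x t + C x t l := by
  induction l with
  | nil => simp [C]
  | cons n l ih =>
    simp only [List.cons_append, S, C]
    linarith

theorem C_le_S (x : List ℕ → ℝ) (t l : List ℕ) : C x t l ≤ S x (l ++ t) := by
  have h1 := S_append x t l
  have h2 := abs_le_S x t
  linarith

theorem C_snoc (x : List ℕ → ℝ) (t l : List ℕ) (n : ℕ) :
    C x t (l ++ [n]) = |x t| + C x (n :: t) l := by
  induction l with
  | nil => simp [C, add_comm]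
  | cons m l ih =>
    simp only [List.cons_append, C, ih]
    have : l ++ [n] ++ t = l ++ n :: t := by simp
    rw [this]
    ring

theorem C_le_add (x y : List ℕ → ℝ) (t l : List ℕ) : C x t l ≤ C y t l + C (x - y) t l := by
  induction l with
  | nil =>
    simp only [C, Pi.sub_apply]
    have := abs_sub_abs_le_abs_sub (x t) (y t)
    linarith
  | cons n l ih =>
    simp only [C, Pi.sub_apply]
    have := abs_sub_abs_le_abs_sub (x (n :: (l ++ t))) (y (n :: (l ++ t)))
    linarith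

theorem C_sub_le (x y : List ℕ → ℝ) (t l : List ℕ) : C (x - y) t l ≤ C x t l + C y t l := by
  induction l with
  | nil =>
    simp only [C, Pi.sub_apply]
    exact abs_sub _ _
  | cons n l ih =>
    simp only [C, Pi.sub_apply]
    have := abs_sub (x (n :: (l ++ t))) (y (n :: (l ++ t)))
    linarith

theorem exists_large_of_lt_C (x : List ℕ → ℝ) (t : List ℕ) (c : ℝ) (l : List ℕ)
    (h : (l.length + 1) * c < C x t l) :
    ∃ l' : List ℕ, l'.length ≤ l.length ∧ c < |x (l' ++ t)| := by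
  induction l with
  | nil => exact ⟨[], le_refl _, by simpa [C] using h⟩
  | cons n l ih =>
    by_cases h1 : c < |x (n :: (l ++ t))|
    · exact ⟨n :: l, le_refl _, by simpa using h1⟩
    · have h2 : ((l.length : ℝ) + 1) * c < C x t l := by
        simp only [C, List.length_cons] at h
        push_cast at h
        have := not_lt.1 h1
        linarith
      obtain ⟨l', hl', hc⟩ := ih h2
      exact ⟨l', hl'.trans (Nat.le_succ _), hc⟩

/-- The tail functional `β_t`. -/
noncomputable def Bt (k : ℕ) (x : H2) (t : List ℕ) : ℝ :=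
  ⨆ l : {l : List ℕ // l.length + t.length ≤ k}, C x t l.1

theorem Bt_bdd (k : ℕ) (x : H2) (t : List ℕ) :
    BddAbove (Set.range fun l : {l : List ℕ // l.length + t.length ≤ k} => C x t l.1) := by
  refine ⟨(k + 1) * ‖x‖, ?_⟩
  rintro _ ⟨l, rfl⟩
  refine (C_le_S x t l.1).trans (S_le_H2 k x _ ?_)
  rw [List.length_append]
  exact l.2

theorem C_le_Bt (k : ℕ) (x : H2) (t l : List ℕ) (h : l.length + t.length ≤ k) :
    C x t l ≤ Bt k x t :=
  le_ciSup (Bt_bdd k x t) ⟨l, h⟩

theorem Bt_nonneg (k : ℕ) (x : H2) (t : List ℕ) : 0 ≤ Bt k x t :=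
  Real.iSup_nonneg fun l => C_nonneg x t l.1

theorem Bt_eq_zero (k : ℕ) (x : H2) (t : List ℕ) (h : k < t.length) : Bt k x t = 0 := by
  have : IsEmpty {l : List ℕ // l.length + t.length ≤ k} := ⟨fun l => by
    have := l.2
    omega⟩
  exact Real.iSup_of_isEmpty _

theorem Bt_le (k : ℕ) (x : H2) (t : List ℕ) (c : ℝ) (hc : 0 ≤ c)
    (h : ∀ l : List ℕ, l.length + t.length ≤ k → C x t l ≤ c) : Bt k x t ≤ c :=
  Real.iSup_le (fun l => h l.1 l.2) hc

theorem exists_of_lt_Bt (k : ℕ) (x : H2) (t : List ℕ) (c : ℝ) (hc : 0 ≤ c) (h : c < Bt k x t) :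
    ∃ l : List ℕ, l.length + t.length ≤ k ∧ c < C x t l := by
  by_contra hcon
  push Not at hcon
  exact absurd (Bt_le k x t c hc hcon) (not_le.2 h)

section
variable {k : ℕ}

theorem C_sub_le_norm (x y : XK k) (t l : List ℕ) (h : l.length + t.length ≤ k) :
    C ((XK.toH2 x : List ℕ → ℝ) - (XK.toH2 y : List ℕ → ℝ)) t l ≤ ‖x - y‖ := by
  refine (C_le_S _ t l).trans ?_
  have := XK.S_le_norm (x - y) (l ++ t) (by rw [List.length_append]; exact h)
  rwa [map_sub, lp.coeFn_sub] at this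

theorem Bt_lip (x y : XK k) (t : List ℕ) :
    |Bt k (XK.toH2 x) t - Bt k (XK.toH2 y) t| ≤ ‖x - y‖ := by
  have key : ∀ x y : XK k, Bt k (XK.toH2 x) t ≤ Bt k (XK.toH2 y) t + ‖x - y‖ := by
    intro x y
    refine Bt_le k _ t _ (add_nonneg (Bt_nonneg _ _ _) (norm_nonneg _)) fun l hl => ?_
    have h1 := C_le_add (XK.toH2 x : List ℕ → ℝ) (XK.toH2 y : List ℕ → ℝ) t l
    have h2 := C_sub_le_norm x y t l hl
    have h3 := C_le_Bt k (XK.toH2 y) t l hl
    linarith
  rw [abs_sub_le_iff]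
  constructor
  · linarith [key x y]
  · have := key y x
    rw [norm_sub_rev] at this
    linarith

theorem Bt_le_norm (x : XK k) (t : List ℕ) : Bt k (XK.toH2 x) t ≤ ‖x‖ := by
  refine Bt_le k _ t _ (norm_nonneg _) fun l hl => ?_
  refine (C_le_S _ t l).trans (XK.S_le_norm x _ ?_)
  rw [List.length_append]
  exact hl

theorem exists_big_aux (x y : H2) (w : ℝ) (l : List ℕ) :
    ∀ t : List ℕ, l.length + t.length ≤ k → (2 * w ≤ Bt k x t ∨ 2 * w ≤ Bt k y t) → 0 < w →
      ∃ t' : List ℕ, t'.length ≤ k ∧ (2 * w ≤ Bt k x t' ∨ 2 * w ≤ Bt k y t') ∧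
        S ((x : List ℕ → ℝ) - y) (l ++ t) ≤ S ((x : List ℕ → ℝ) - y) t' + 4 * w := by
  induction l using List.reverseRecOn with
  | nil =>
    intro t ht hb hw
    exact ⟨t, by simpa using ht, hb, by simp [hw.le]⟩
  | append_singleton l n ih =>
    intro t ht hb hw
    have hlen : l.length + (n :: t).length ≤ k := by
      simp only [List.length_append, List.length_cons, List.length_nil] at ht ⊢
      omega
    have happ : l ++ [n] ++ t = l ++ n :: t := by simp
    rw [happ]
    by_cases hb' : 2 * w ≤ Bt k x (n :: t) ∨ 2 * w ≤ Bt k y (n :: t)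
    · exact ih (n :: t) hlen hb' hw
    · push Not at hb'
      refine ⟨t, by simp only [List.length_append, List.length_cons] at ht; omega, hb, ?_⟩
      have h1 := S_append ((x : List ℕ → ℝ) - y) (n :: t) l
      have h2 := C_sub_le (x : List ℕ → ℝ) y (n :: t) l
      have h3 := C_le_Bt k x (n :: t) l hlen
      have h4 := C_le_Bt k y (n :: t) l hlen
      have h5 : S ((x : List ℕ → ℝ) - y) (n :: t) =
        |((x : List ℕ → ℝ) - y) (n :: t)| + S ((x : List ℕ → ℝ) - y) t := rfl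
      linarith

theorem exists_big (x y : H2) (w : ℝ) (hw : 0 < w) (u : List ℕ) (hu : u.length ≤ k)
    (hD : 4 * w ≤ S ((x : List ℕ → ℝ) - y) u) :
    ∃ t : List ℕ, t.length ≤ k ∧ (2 * w ≤ Bt k x t ∨ 2 * w ≤ Bt k y t) ∧
        S ((x : List ℕ → ℝ) - y) u ≤ S ((x : List ℕ → ℝ) - y) t + 4 * w := by
  by_cases hb : 2 * w ≤ Bt k x [] ∨ 2 * w ≤ Bt k y []
  · have := exists_big_aux (k := k) x y w u [] (by simpa using hu) hb hw
    simpa using this
  · push Not at hb
    exfalso
    have h1 := S_append ((x : List ℕ → ℝ) - y) [] u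
    rw [List.append_nil] at h1
    have h2 := C_sub_le (x : List ℕ → ℝ) y [] u
    have h3 := C_le_Bt k x [] u (by simpa using hu)
    have h4 := C_le_Bt k y [] u (by simpa using hu)
    have h5 : S ((x : List ℕ → ℝ) - y) [] = |((x : List ℕ → ℝ) - y) []| := rfl
    linarith

end

/-! ### Distances to grid points -/

/-- Chain distance to the grid point encoded by `(r, τ)`. -/
def D (x : List ℕ → ℝ) (δ : ℝ) (r : ℤ) : List (ℕ × ℤ) → ℝ
  | [] => |x [] - δ * r|
  | (p :: τ) => |x (p.1 :: τ.map Prod.fst) - δ * p.2| + D x δ r τ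

theorem D_nonneg (x : List ℕ → ℝ) (δ : ℝ) (r : ℤ) (τ : List (ℕ × ℤ)) : 0 ≤ D x δ r τ := by
  induction τ with
  | nil => exact abs_nonneg _
  | cons p τ ih => exact add_nonneg (abs_nonneg _) ih

theorem D_le_add (x y : List ℕ → ℝ) (δ : ℝ) (r : ℤ) (τ : List (ℕ × ℤ)) :
    D x δ r τ ≤ D y δ r τ + S (x - y) (τ.map Prod.fst) := by
  induction τ with
  | nil =>
    simp only [D, S, List.map_nil, Pi.sub_apply]
    have := abs_add_le (y [] - δ * r) (x [] - y [])
    have h : y [] - δ * r + (x [] - y []) = x [] - δ * r := by ring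
    rw [h] at this
    exact this
  | cons p τ ih =>
    simp only [D, S, List.map_cons, Pi.sub_apply]
    have := abs_add_le (y (p.1 :: τ.map Prod.fst) - δ * p.2)
      (x (p.1 :: τ.map Prod.fst) - y (p.1 :: τ.map Prod.fst))
    have h : y (p.1 :: τ.map Prod.fst) - δ * p.2 +
      (x (p.1 :: τ.map Prod.fst) - y (p.1 :: τ.map Prod.fst)) =
        x (p.1 :: τ.map Prod.fst) - δ * p.2 := by ring
    rw [h] at this
    linarith

theorem S_le_D_add_D (x y : List ℕ → ℝ) (δ : ℝ) (r : ℤ) (τ : List (ℕ × ℤ)) :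
    S (x - y) (τ.map Prod.fst) ≤ D x δ r τ + D y δ r τ := by
  induction τ with
  | nil =>
    simp only [D, S, List.map_nil, Pi.sub_apply]
    have := abs_sub (x [] - δ * r) (y [] - δ * r)
    have h : x [] - δ * r - (y [] - δ * r) = x [] - y [] := by ring
    rwa [h] at this
  | cons p τ ih =>
    simp only [D, S, List.map_cons, Pi.sub_apply]
    have := abs_sub (x (p.1 :: τ.map Prod.fst) - δ * p.2) (y (p.1 :: τ.map Prod.fst) - δ * p.2)
    have h : x (p.1 :: τ.map Prod.fst) - δ * p.2 - (y (p.1 :: τ.map Prod.fst) - δ * p.2) =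
        x (p.1 :: τ.map Prod.fst) - y (p.1 :: τ.map Prod.fst) := by ring
    rw [h] at this
    linarith

theorem exists_round (a δ : ℝ) (hδ : 0 < δ) : ∃ r : ℤ, |a - δ * r| ≤ δ / 2 := by
  refine ⟨round (a / δ), ?_⟩
  have h := abs_sub_round (a / δ)
  have h2 : a - δ * (round (a / δ) : ℤ) = δ * (a / δ - round (a / δ)) := by
    field_simp
  rw [h2, abs_mul, abs_of_pos hδ]
  calc δ * |a / δ - round (a / δ)| ≤ δ * (1 / 2) := mul_le_mul_of_nonneg_left h hδ.le
    _ = δ / 2 := by ring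

theorem exists_grid (x : List ℕ → ℝ) (δ : ℝ) (hδ : 0 < δ) (t : List ℕ) :
    ∃ (r : ℤ) (τ : List (ℕ × ℤ)), τ.map Prod.fst = t ∧ D x δ r τ ≤ (t.length + 1) * (δ / 2) := by
  obtain ⟨r, hr⟩ := exists_round (x []) δ hδ
  refine ⟨r, ?_⟩
  induction t with
  | nil => exact ⟨[], rfl, by simpa [D] using hr⟩
  | cons n t ih =>
    obtain ⟨τ, hτ, hD⟩ := ih
    obtain ⟨a, ha⟩ := exists_round (x (n :: t)) δ hδ
    refine ⟨(n, a) :: τ, by simp [hτ], ?_⟩
    simp only [D, hτ, List.length_cons]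
    push_cast
    linarith

theorem grid_bound (x : List ℕ → ℝ) (c : ℝ) (hc : ∀ s, |x s| ≤ c) (δ : ℝ) (hδ : 0 < δ) (r : ℤ)
    (τ : List (ℕ × ℤ)) (w : ℝ) (h : D x δ r τ < w) (L : ℕ) (hL : (c + w) ≤ δ * L) :
    (r ∈ Finset.Icc (-(L : ℤ)) L) ∧ ∀ p ∈ τ, p.2 ∈ Finset.Icc (-(L : ℤ)) L := by
  have key : ∀ (s : List ℕ) (a : ℤ), |x s - δ * a| < w → a ∈ Finset.Icc (-(L : ℤ)) L := by
    intro s a ha
    have h1 : |δ * a| < c + w := by
      have := abs_sub_abs_le_abs_sub (δ * (a : ℝ)) (x s)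
      rw [abs_sub_comm] at this
      have := hc s
      linarith
    have h2 : δ * |(a : ℝ)| < δ * L := by
      rw [abs_mul, abs_of_pos hδ] at h1
      linarith
    have h3 : |(a : ℝ)| < L := lt_of_mul_lt_mul_left h2 hδ.le
    have h4 : |a| < (L : ℤ) := by exact_mod_cast h3
    rw [Finset.mem_Icc]
    exact abs_le.1 h4.le
  induction τ with
  | nil => exact ⟨key [] r (by simpa [D] using h), by simp⟩
  | cons p τ ih =>
    simp only [D] at h
    have h1 := D_nonneg x δ r τ
    have h2 := abs_nonneg (x (p.1 :: τ.map Prod.fst) - δ * p.2)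
    obtain ⟨h3, h4⟩ := ih (by linarith)
    refine ⟨h3, ?_⟩
    intro q hq
    rcases List.mem_cons.1 hq with rfl | hq
    · exact key _ _ (lt_of_le_of_lt (le_add_of_nonneg_right h1) h)
    · exact h4 q hq

/-- All lists with first components `t` and second components in `[-L, L]`. -/
noncomputable def Zf (L : ℕ) : List ℕ → Finset (List (ℕ × ℤ))
  | [] => {[]}
  | (n :: t) => ((Finset.Icc (-(L : ℤ)) L) ×ˢ (Zf L t)).image fun p => (n, p.1) :: p.2

theorem card_Zf (L : ℕ) (t : List ℕ) : (Zf L t).card ≤ (2 * L + 1) ^ t.length := by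
  induction t with
  | nil => simp [Zf]
  | cons n t ih =>
    refine Finset.card_image_le.trans ?_
    rw [Finset.card_product, List.length_cons, pow_succ, mul_comm]
    refine Nat.mul_le_mul ih ?_
    rw [Int.card_Icc]
    omega

theorem mem_Zf (L : ℕ) (τ : List (ℕ × ℤ)) (h : ∀ p ∈ τ, p.2 ∈ Finset.Icc (-(L : ℤ)) L) :
    τ ∈ Zf L (τ.map Prod.fst) := by
  induction τ with
  | nil => simp [Zf]
  | cons p τ ih =>
    simp only [List.map_cons, Zf, Finset.mem_image, Finset.mem_product]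
    exact ⟨(p.2, τ), ⟨h p (by simp), ih fun q hq => h q (by simp [hq])⟩, rfl⟩

/-- Few coordinates of a vector of `H2` are large. -/
theorem exists_large_finset (x : H2) (R c : ℝ) (hc : 0 < c) (hx : ‖x‖ ≤ R) (M : ℕ)
    (hM : (R / c) ^ 2 ≤ M) :
    ∃ A : Finset (List ℕ), (∀ s, c < |(x : List ℕ → ℝ) s| → s ∈ A) ∧ A.card ≤ M := by
  have key : ∀ A : Finset (List ℕ), (∀ s ∈ A, c < |(x : List ℕ → ℝ) s|) → A.card ≤ M := by
    intro A hA
    have h1 := lp.sum_rpow_le_norm_rpow (p := 2) (by norm_num) x A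
    have h2 : (A.card : ℝ) * c ^ 2 ≤ ‖x‖ ^ 2 := by
      have h3 : ∑ s ∈ A, c ^ 2 ≤ ∑ i ∈ A, ‖(x : List ℕ → ℝ) i‖ ^ (2 : ℝ≥0∞).toReal := by
        refine Finset.sum_le_sum fun s hs => ?_
        have := hA s hs
        simp only [ENNReal.toReal_ofNat, Real.rpow_ofNat, Real.norm_eq_abs]
        exact pow_le_pow_left₀ hc.le this.le 2
      rw [Finset.sum_const, nsmul_eq_mul] at h3
      refine h3.trans (h1.trans ?_)
      simp
    have h4 : (A.card : ℝ) ≤ (R / c) ^ 2 := by
      rw [div_pow, le_div_iff₀ (by positivity)]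
      exact h2.trans (pow_le_pow_left₀ (norm_nonneg _) hx 2)
    exact_mod_cast h4.trans hM
  have hfin : {s : List ℕ | c < |(x : List ℕ → ℝ) s|}.Finite := by
    by_contra hinf
    obtain ⟨A, hA, hcard⟩ := Set.Infinite.exists_subset_card_eq hinf (M + 1)
    have := key A fun s hs => hA hs
    omega
  refine ⟨hfin.toFinset, fun s hs => by simpa using hs, key _ fun s hs => by simpa using hs⟩

end Pool.Agent.Helper91.CLR
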