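import Mathlib
import Pool.Agent.Helper91.CLR.Tree

set_option autoImplicit false

open scoped ENNReal

namespace Pool.Agent.Helper91.CLR

/-- Index type of the nonlinear coordinates. -/
abbrev Idx : Type := ℕ × ℤ × List (ℕ × ℤ)

/-- The nonlinear coordinates. -/
noncomputable def hh (k n : ℕ) (x : XK k) (i : Idx) : ℝ :=
  if i.1 ≤ n then
    min (min (max ((2 : ℝ) ^ i.1 - D (XK.toH2 x) ((2 : ℝ) ^ i.1 / (4 * (k + 1))) i.2.1 i.2.2) 0)
      (max (Bt k (XK.toH2 x) (i.2.2.map Prod.fst) - (2 : ℝ) ^ i.1) 0))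
      (max (min (‖x‖ - (2 : ℝ) ^ n / 2) (4 * (2 : ℝ) ^ n - ‖x‖)) 0)
  else 0

theorem hh_nonneg (k n : ℕ) (x : XK k) (i : Idx) : 0 ≤ hh k n x i := by
  unfold hh
  split_ifs
  · exact le_min (le_min (le_max_right _ _) (le_max_right _ _)) (le_max_right _ _)
  · exact le_refl _

theorem hh_lip (k n : ℕ) (x y : XK k) (i : Idx) : |hh k n x i - hh k n y i| ≤ ‖x - y‖ := by
  have hn := norm_nonneg (x - y)
  unfold hh
  split_ifs with hi
  swap
  · simpa using hn
  by_cases ht : k < (i.2.2.map Prod.fst).length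
  · rw [Bt_eq_zero _ _ _ ht, Bt_eq_zero _ _ _ ht]
    have h0 : max ((0 : ℝ) - 2 ^ i.1) 0 = 0 := max_eq_right (by
      have : (0 : ℝ) < 2 ^ i.1 := by positivity
      linarith)
    rw [h0]
    have h1 : ∀ a b : ℝ, 0 ≤ a → 0 ≤ b → min (min a 0) b = 0 := by
      intro a b ha hb
      rw [min_eq_right ha, min_eq_left hb]
    rw [h1 _ _ (le_max_right _ _) (le_max_right _ _), h1 _ _ (le_max_right _ _) (le_max_right _ _)]
    simpa using hn
  · push Not at ht
    refine (abs_min_sub_min_le_max _ _ _ _).trans (max_le ?_ ?_)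
    · refine (abs_min_sub_min_le_max _ _ _ _).trans (max_le ?_ ?_)
      · refine (abs_max_sub_max_le_abs _ _ _).trans ?_
        have hS := XK.S_le_norm (x - y) _ ht
        rw [map_sub, lp.coeFn_sub] at hS
        have hS' := XK.S_le_norm (y - x) _ ht
        rw [map_sub, lp.coeFn_sub, norm_sub_rev] at hS'
        have h1 := D_le_add (XK.toH2 x : List ℕ → ℝ) (XK.toH2 y : List ℕ → ℝ)
          ((2 : ℝ) ^ i.1 / (4 * (k + 1))) i.2.1 i.2.2
        have h2 := D_le_add (XK.toH2 y : List ℕ → ℝ) (XK.toH2 x : List ℕ → ℝ)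
          ((2 : ℝ) ^ i.1 / (4 * (k + 1))) i.2.1 i.2.2
        rw [abs_le]
        constructor <;> linarith
      · refine (abs_max_sub_max_le_abs _ _ _).trans ?_
        have := Bt_lip x y (i.2.2.map Prod.fst)
        have h : Bt k (XK.toH2 x) (i.2.2.map Prod.fst) - 2 ^ i.1 -
          (Bt k (XK.toH2 y) (i.2.2.map Prod.fst) - 2 ^ i.1) =
            Bt k (XK.toH2 x) (i.2.2.map Prod.fst) - Bt k (XK.toH2 y) (i.2.2.map Prod.fst) := by ring
        rwa [h]
    · refine (abs_max_sub_max_le_abs _ _ _).trans ?_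
      refine (abs_min_sub_min_le_max _ _ _ _).trans (max_le ?_ ?_)
      · have h : ‖x‖ - 2 ^ n / 2 - (‖y‖ - 2 ^ n / 2) = ‖x‖ - ‖y‖ := by ring
        rw [h]
        exact abs_norm_sub_norm_le x y
      · have h : 4 * 2 ^ n - ‖x‖ - (4 * 2 ^ n - ‖y‖) = ‖y‖ - ‖x‖ := by ring
        rw [h, norm_sub_rev]
        exact abs_norm_sub_norm_le y x

theorem hh_ne_zero {k n : ℕ} {x : XK k} {i : Idx} (h : hh k n x i ≠ 0) :
    i.1 ≤ n ∧ D (XK.toH2 x) ((2 : ℝ) ^ i.1 / (4 * (k + 1))) i.2.1 i.2.2 < (2 : ℝ) ^ i.1 ∧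
      (2 : ℝ) ^ i.1 < Bt k (XK.toH2 x) (i.2.2.map Prod.fst) ∧ (2 : ℝ) ^ n / 2 < ‖x‖ ∧
      ‖x‖ < 4 * (2 : ℝ) ^ n := by
  have hpos : 0 < hh k n x i := lt_of_le_of_ne (hh_nonneg k n x i) (Ne.symm h)
  unfold hh at hpos
  split_ifs at hpos with hi
  · rw [lt_min_iff, lt_min_iff, lt_max_iff, lt_max_iff, lt_max_iff, lt_min_iff] at hpos
    obtain ⟨⟨h1, h2⟩, h3⟩ := hpos
    have h1 := h1.resolve_right (lt_irrefl _)
    have h2 := h2.resolve_right (lt_irrefl _)
    have h3 := h3.resolve_right (lt_irrefl _)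
    exact ⟨hi, by linarith, by linarith, by linarith [h3.1], by linarith [h3.2]⟩
  · exact absurd hpos (lt_irrefl _)

/-- Bound of the grid coordinates. -/
def LL (k n : ℕ) : ℕ := 20 * (k + 1) * 2 ^ n

/-- Bound for the number of large entries. -/
def MM (k n : ℕ) : ℕ := (4 * 2 ^ n * (k + 1)) ^ 2

/-- Bound for the number of active coordinates. -/
def NN (k n : ℕ) : ℕ :=
  (n + 1) * ((2 * LL k n + 1) * ((MM k n * (k + 1)) * (2 * LL k n + 1) ^ k))

theorem hh_support (k n : ℕ) (x : XK k) :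
    ∃ A : Finset Idx, (∀ i, hh k n x i ≠ 0 → i ∈ A) ∧ A.card ≤ NN k n := by
  by_cases hx : ‖x‖ < 4 * (2 : ℝ) ^ n
  swap
  · exact ⟨∅, fun i hi => absurd (hh_ne_zero hi).2.2.2.2 hx, by simp⟩
  have hk : (0 : ℝ) < (k : ℝ) + 1 := by positivity
  obtain ⟨A, hA, hAc⟩ := exists_large_finset (XK.toH2 x) (4 * (2 : ℝ) ^ n) (1 / ((k : ℝ) + 1))
    (by positivity) ((XK.norm_toH2_le x).trans hx.le) (MM k n) (by
      apply le_of_eq
      unfold MM
      push_cast
      field_simp)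
  classical
  let A' := A.filter fun s => s.length ≤ k
  let T : Finset (List ℕ) := A'.biUnion fun s => s.tails.toFinset
  have hT : T.card ≤ MM k n * (k + 1) := by
    refine (Finset.card_biUnion_le_card_mul A' _ (k + 1) ?_).trans ?_
    · intro s hs
      refine (List.toFinset_card_le _).trans ?_
      rw [List.length_tails]
      have := (Finset.mem_filter.1 hs).2
      omega
    · exact Nat.mul_le_mul_right _ ((Finset.card_filter_le _ _).trans hAc)
  have hT2 : ∀ t ∈ T, t.length ≤ k := by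
    intro t ht
    obtain ⟨s, hs, hts⟩ := Finset.mem_biUnion.1 ht
    have h1 := (Finset.mem_filter.1 hs).2
    rw [List.mem_toFinset, List.mem_tails] at hts
    exact hts.length_le.trans h1
  refine ⟨(Finset.range (n + 1)) ×ˢ ((Finset.Icc (-(LL k n : ℤ)) (LL k n)) ×ˢ
    (T.biUnion fun t => Zf (LL k n) t)), ?_, ?_⟩
  · intro i hi
    obtain ⟨h1, h2, h3, h4, h5⟩ := hh_ne_zero hi
    have hw : (1 : ℝ) ≤ 2 ^ i.1 := one_le_pow₀ (by norm_num)
    have hw2 : (2 : ℝ) ^ i.1 ≤ 2 ^ n := pow_le_pow_right₀ (by norm_num) h1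
    obtain ⟨h6, h7⟩ := grid_bound (XK.toH2 x) (4 * (2 : ℝ) ^ n)
      (fun s => (XK.abs_le_norm x s).trans hx.le) ((2 : ℝ) ^ i.1 / (4 * (k + 1)))
      (by positivity) i.2.1 i.2.2 _ h2 (LL k n) (by
        have h8 : (2 : ℝ) ^ i.1 / (4 * (k + 1)) * (LL k n : ℕ) = 5 * (2 ^ i.1 * 2 ^ n) := by
          unfold LL
          push_cast
          field_simp
          ring
        rw [h8]
        have h9 : (2 : ℝ) ^ n ≤ 2 ^ i.1 * 2 ^ n := le_mul_of_one_le_left (by positivity) hw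
        linarith)
    have ht : i.2.2.map Prod.fst ∈ T := by
      obtain ⟨l, hl, hC⟩ := exists_of_lt_Bt k (XK.toH2 x) (i.2.2.map Prod.fst) 1 zero_le_one
        (lt_of_le_of_lt hw h3)
      obtain ⟨l', hl', hx'⟩ := exists_large_of_lt_C (XK.toH2 x) (i.2.2.map Prod.fst)
        (1 / ((k : ℝ) + 1)) l (by
          refine lt_of_le_of_lt ?_ hC
          have : (l.length : ℝ) ≤ k := by
            have : l.length ≤ k := by omega
            exact_mod_cast this
          rw [mul_one_div, div_le_one hk]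
          linarith)
      refine Finset.mem_biUnion.2 ⟨l' ++ i.2.2.map Prod.fst, ?_, ?_⟩
      · refine Finset.mem_filter.2 ⟨hA _ hx', ?_⟩
        rw [List.length_append]
        omega
      · rw [List.mem_toFinset, List.mem_tails]
        exact List.suffix_append _ _
    rw [Finset.mem_product, Finset.mem_product]
    refine ⟨Finset.mem_range.2 (by omega), h6, ?_⟩
    exact Finset.mem_biUnion.2 ⟨_, ht, mem_Zf _ _ h7⟩
  · rw [Finset.card_product, Finset.card_product, Finset.card_range]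
    unfold NN
    refine Nat.mul_le_mul_left _ (Nat.mul_le_mul ?_ ?_)
    · rw [Int.card_Icc]
      omega
    · refine (Finset.card_biUnion_le_card_mul T _ ((2 * LL k n + 1) ^ k) ?_).trans
        (Nat.mul_le_mul_right _ hT)
      intro t ht
      exact (card_Zf _ t).trans (Nat.pow_le_pow_right (by omega) (hT2 t ht))

theorem hh_lower_aux {k : ℕ} (x y : XK k) (j : ℕ) (t : List ℕ) (ht : t.length ≤ k)
    (hb : 2 * (2 : ℝ) ^ j ≤ Bt k (XK.toH2 x) t)
    (hS : 4 * (2 : ℝ) ^ j ≤ S ((XK.toH2 x : List ℕ → ℝ) - (XK.toH2 y : List ℕ → ℝ)) t) :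
    ∃ (n : ℕ) (i : Idx), 7 / 8 * (2 : ℝ) ^ j ≤ |hh k n x i - hh k n y i| := by
  have hw : (1 : ℝ) ≤ 2 ^ j := one_le_pow₀ (by norm_num)
  have hk : (0 : ℝ) < (k : ℝ) + 1 := by positivity
  have hxn : 2 * (2 : ℝ) ^ j ≤ ‖x‖ := hb.trans (Bt_le_norm x t)
  obtain ⟨n, hn1, hn2⟩ := exists_nat_pow_near (x := ‖x‖) (y := 2) (by linarith) (by norm_num)
  have hjn : j + 1 < n + 1 := by
    have : (2 : ℝ) ^ (j + 1) < 2 ^ (n + 1) := by
      refine lt_of_le_of_lt ?_ hn2
      rw [pow_succ]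
      linarith
    exact (pow_lt_pow_iff_right₀ (by norm_num : (1 : ℝ) < 2)).1 this
  have hjn2 : (2 : ℝ) ^ (j + 1) ≤ 2 ^ n := pow_le_pow_right₀ (by norm_num) (by omega)
  rw [pow_succ] at hjn2 hn2
  obtain ⟨r, τ, hτ, hD⟩ := exists_grid (XK.toH2 x) ((2 : ℝ) ^ j / (4 * (k + 1))) (by positivity) t
  have hD' : D (XK.toH2 x) ((2 : ℝ) ^ j / (4 * (k + 1))) r τ ≤ (2 : ℝ) ^ j / 8 := by
    refine hD.trans ?_
    have h1 : (t.length : ℝ) ≤ k := by exact_mod_cast ht
    calc ((t.length : ℝ) + 1) * ((2 : ℝ) ^ j / (4 * (k + 1)) / 2)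
        ≤ ((k : ℝ) + 1) * ((2 : ℝ) ^ j / (4 * (k + 1)) / 2) :=
          mul_le_mul_of_nonneg_right (by linarith) (by positivity)
      _ = (2 : ℝ) ^ j / 8 := by field_simp; ring
  have hDy := S_le_D_add_D (XK.toH2 x : List ℕ → ℝ) (XK.toH2 y : List ℕ → ℝ)
    ((2 : ℝ) ^ j / (4 * (k + 1))) r τ
  rw [hτ] at hDy
  refine ⟨n, (j, r, τ), ?_⟩
  have hy : hh k n y (j, r, τ) = 0 := by
    by_contra h
    have := (hh_ne_zero h).2.1
    simp only at this
    linarith
  have hx : 7 / 8 * (2 : ℝ) ^ j ≤ hh k n x (j, r, τ) := by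
    unfold hh
    rw [if_pos (show (j, r, τ).1 ≤ n by simp only; omega)]
    simp only
    rw [hτ]
    refine le_min (le_min (le_max_of_le_left ?_) (le_max_of_le_left ?_))
      (le_max_of_le_left (le_min ?_ ?_)) <;> linarith
  rw [hy, sub_zero]
  exact hx.trans (le_abs_self _)

theorem hh_lower {k : ℕ} (x y : XK k) (j : ℕ) (u : List ℕ) (hu : u.length ≤ k)
    (hS : 8 * (2 : ℝ) ^ j ≤ S ((XK.toH2 x : List ℕ → ℝ) - (XK.toH2 y : List ℕ → ℝ)) u) :
    ∃ (n : ℕ) (i : Idx), 7 / 8 * (2 : ℝ) ^ j ≤ |hh k n x i - hh k n y i| := by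
  have hw : (0 : ℝ) < 2 ^ j := by positivity
  obtain ⟨t, ht, hb, hSt⟩ := exists_big (k := k) (XK.toH2 x) (XK.toH2 y) ((2 : ℝ) ^ j) hw u hu
    (by linarith)
  rcases hb with hb | hb
  · exact hh_lower_aux x y j t ht hb (by linarith)
  · have hsw : S ((XK.toH2 y : List ℕ → ℝ) - (XK.toH2 x : List ℕ → ℝ)) t =
        S ((XK.toH2 x : List ℕ → ℝ) - (XK.toH2 y : List ℕ → ℝ)) t := by
      rw [← S_neg, neg_sub]
    obtain ⟨n, i, h⟩ := hh_lower_aux y x j t ht hb (by rw [hsw]; linarith)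
    exact ⟨n, i, by rwa [abs_sub_comm] at h⟩

end Pool.Agent.Helper91.CLR
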