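import Mathlib
import Pool.Agent.Helper91.CLR.XK

/-!
# The `ℓ₂`-sum of the spaces `XK k` has no equivalent asymptotically uniformly smooth norm
-/

set_option autoImplicit false

open scoped ENNReal
open Filter Topology

namespace Pool.Agent.Helper91.CLR

/-- The `ℓ₂`-sum of the spaces `XK k`. -/
abbrev XX : Type := lp (fun k : ℕ => XK k) 2

namespace NonAUS

/-- The unit vector of `H2` at the node `s`. -/
noncomputable def e (s : List ℕ) : H2 := lp.single 2 s (1 : ℝ)

theorem e_self (s : List ℕ) : (e s : List ℕ → ℝ) s = 1 := lp.single_apply_self _ _ _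

theorem e_ne {s u : List ℕ} (h : u ≠ s) : (e s : List ℕ → ℝ) u = 0 :=
  lp.single_apply_ne _ _ _ h

/-- The embedding of `H2` in the summand number `k` of `XX`. -/
noncomputable def emb (k : ℕ) : H2 →L[ℝ] XX :=
  (lp.singleContinuousLinearMap ℝ (fun k : ℕ => XK k) 2 k).comp
    ((XK.equivH2 k).symm : H2 →L[ℝ] XK k)

theorem norm_emb (k : ℕ) (z : H2) : ‖emb k z‖ = ‖XK.ofH2 (k := k) z‖ := by
  have : emb k z = lp.single 2 k (XK.ofH2 (k := k) z) := rfl
  rw [this, lp.norm_single (by norm_num)]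

theorem S_congr {x y : List ℕ → ℝ} {t : List ℕ} (h : ∀ s : List ℕ, s.length ≤ t.length → x s = y s) :
    S x t = S y t := by
  induction t with
  | nil => simp only [S]; rw [h [] le_rfl]
  | cons n t ih =>
    simp only [S]
    rw [h (n :: t) le_rfl, ih fun s hs => h s (hs.trans (by simp))]

/-- The vectors `z_t`. -/
noncomputable def z (K : ℝ) : List ℕ → H2
  | [] => K • e []
  | (n :: t) => z K t + e (n :: t)

theorem z_long (K : ℝ) (t s : List ℕ) (h : t.length < s.length) : (z K t : List ℕ → ℝ) s = 0 := by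
  induction t with
  | nil =>
    have hs : s ≠ [] := by
      rintro rfl
      simp at h
    simp only [z, lp.coeFn_smul, Pi.smul_apply, smul_eq_mul]
    rw [e_ne hs, mul_zero]
  | cons n t ih =>
    have hs : s ≠ n :: t := by
      rintro rfl
      simp at h
    simp only [z, lp.coeFn_add, Pi.add_apply]
    rw [e_ne hs, ih (by simp only [List.length_cons] at h; omega), add_zero]

theorem S_z (K : ℝ) (hK : 0 ≤ K) (t : List ℕ) : S (z K t) t = K + t.length := by
  induction t with
  | nil =>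
    simp only [S, z, lp.coeFn_smul, Pi.smul_apply, smul_eq_mul, e_self, mul_one, List.length_nil,
      Nat.cast_zero, add_zero]
    exact abs_of_nonneg hK
  | cons n t ih =>
    have h1 : S (z K (n :: t)) t = S (z K t) t := by
      refine S_congr fun s hs => ?_
      simp only [z, lp.coeFn_add, Pi.add_apply]
      rw [e_ne, add_zero]
      rintro rfl
      simp at hs
    simp only [S]
    rw [h1, ih]
    simp only [z, lp.coeFn_add, Pi.add_apply, e_self]
    rw [z_long K t (n :: t) (by simp)]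
    simp
    ring

theorem S_e_le (s u : List ℕ) : S (e s) u ≤ 1 := by
  induction u with
  | nil =>
    simp only [S]
    by_cases h : ([] : List ℕ) = s
    · subst h
      rw [e_self]
      simp
    · rw [e_ne h]
      simp
  | cons n t ih =>
    simp only [S]
    by_cases h : (n :: t) = s
    · subst h
      rw [e_self]
      have : S (e (n :: t)) t = 0 := by
        have h0 : S (e (n :: t)) t = S (0 : List ℕ → ℝ) t := by
          refine S_congr fun s hs => ?_
          rw [e_ne, Pi.zero_apply]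
          rintro rfl
          simp at hs
        rw [h0, S_zero]
      rw [this]
      simp
    · rw [e_ne h]
      simpa using ih

theorem norm_e (s : List ℕ) : ‖e s‖ = 1 := by
  rw [e, lp.norm_single (by norm_num)]
  simp

theorem norm_emb_e_le (k : ℕ) (s : List ℕ) : ‖emb k (e s)‖ ≤ 1 := by
  rw [norm_emb]
  refine XK.norm_le _ _ ?_ ?_
  · rw [XK.toH2_ofH2, norm_e]
  · intro u _
    rw [XK.toH2_ofH2]
    exact S_e_le s u

theorem norm_emb_z_nil (k : ℕ) (K : ℝ) (hK : 0 ≤ K) : ‖emb k (z K [])‖ ≤ K := by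
  rw [z, map_smul, norm_smul, Real.norm_eq_abs, abs_of_nonneg hK]
  exact mul_le_of_le_one_right hK (norm_emb_e_le k [])

theorem le_norm_emb_z (k : ℕ) (K : ℝ) (hK : 0 ≤ K) (t : List ℕ) (ht : t.length ≤ k) :
    K + t.length ≤ ‖emb k (z K t)‖ := by
  rw [norm_emb, ← S_z K hK t]
  exact XK.S_le_norm (k := k) (XK.ofH2 (z K t)) t ht

/-- Weak nullness of the children of a node. -/
theorem finite_large (k : ℕ) (t : List ℕ) (g : XX →L[ℝ] ℝ) (η : ℝ) (hη : 0 < η) :
    {n : ℕ | η ≤ |g (emb k (e (n :: t)))|}.Finite := by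
  set φ : H2 →L[ℝ] ℝ := g.comp (emb k) with hφ
  set w : H2 := (InnerProductSpace.toDual ℝ H2).symm φ with hw
  have h1 : ∀ s, φ (e s) = (w : List ℕ → ℝ) s := by
    intro s
    have h2 : φ (e s) = inner ℝ w (e s) := by
      rw [hw, InnerProductSpace.toDual_symm_apply]
    rw [h2, e, lp.inner_single_right]
    simp
  have h3 : Summable fun s : List ℕ => |(w : List ℕ → ℝ) s| ^ 2 := by
    have := (lp.memℓp w).summable (by norm_num : (0 : ℝ) < (2 : ℝ≥0∞).toReal)
    simpa using this
  have h4 : Tendsto (fun s : List ℕ => |(w : List ℕ → ℝ) s| ^ 2) cofinite (𝓝 0) :=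
    h3.tendsto_cofinite_zero
  have h5 : ∀ᶠ s in cofinite, |(w : List ℕ → ℝ) s| ^ 2 < η ^ 2 :=
    h4.eventually (gt_mem_nhds (by positivity))
  have h6 : {s : List ℕ | ¬ |(w : List ℕ → ℝ) s| ^ 2 < η ^ 2}.Finite := h5
  have hinj : Function.Injective (fun n : ℕ => n :: t) := fun a b h => by simpa using h
  refine (h6.preimage (f := fun n : ℕ => n :: t) hinj.injOn).subset ?_
  intro n hn
  simp only [Set.mem_ofPred_eq, Set.mem_preimage] at hn ⊢
  rw [not_lt]
  have h7 : g (emb k (e (n :: t))) = (w : List ℕ → ℝ) (n :: t) := h1 _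
  rw [h7] at hn
  exact pow_le_pow_left₀ hη.le hn 2

/-- Every vector is near the common kernel of finitely many functionals on which it is small. -/
theorem near_ker (F : Finset (XX →L[ℝ] ℝ)) : ∃ C : ℝ, 0 < C ∧ ∀ (v : XX) (η : ℝ), 0 ≤ η →
    (∀ g ∈ F, |g v| ≤ η) → ∃ y : XX, (∀ g ∈ F, g y = 0) ∧ ‖y - v‖ ≤ C * η := by
  set T : XX →ₗ[ℝ] (F → ℝ) := LinearMap.pi fun g => (g.1 : XX →ₗ[ℝ] ℝ) with hT
  obtain ⟨S0, hS0⟩ := T.rangeRestrict.exists_rightInverse_of_surjective
    (LinearMap.range_eq_top.2 T.surjective_rangeRestrict)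
  set S1 : LinearMap.range T →L[ℝ] XX := LinearMap.toContinuousLinearMap S0 with hS1
  refine ⟨‖S1‖ + 1, by positivity, fun v η hη hv => ⟨v - S1 (T.rangeRestrict v), ?_, ?_⟩⟩
  · intro g hg
    have h1 : T.rangeRestrict (S0 (T.rangeRestrict v)) = T.rangeRestrict v :=
      LinearMap.congr_fun hS0 (T.rangeRestrict v)
    have h2 : T (S0 (T.rangeRestrict v)) = T v := congrArg Subtype.val h1
    have h3 := congrFun h2 ⟨g, hg⟩
    simp only [hT, LinearMap.pi_apply] at h3
    rw [map_sub, sub_eq_zero]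
    exact h3.symm
  · have h1 : ‖T.rangeRestrict v‖ ≤ η := by
      have : ‖T v‖ ≤ η := by
        rw [pi_norm_le_iff_of_nonneg hη]
        intro g
        exact hv g.1 g.2
      exact this
    rw [sub_sub_cancel_left, norm_neg]
    refine (S1.le_opNorm _).trans ?_
    refine mul_le_mul ?_ h1 (norm_nonneg _) (by positivity)
    linarith

theorem exists_child (k : ℕ) (t : List ℕ) (F : Finset (XX →L[ℝ] ℝ)) :
    ∃ (n : ℕ) (y : XX), (∀ g ∈ F, g y = 0) ∧ ‖y - emb k (e (n :: t))‖ ≤ 1 / 4 := by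
  obtain ⟨C, hC, h⟩ := near_ker F
  have hη : 0 < 1 / (4 * C) := by positivity
  have hfin : (⋃ g ∈ F, {n : ℕ | 1 / (4 * C) ≤ |g (emb k (e (n :: t)))|}).Finite :=
    Set.Finite.biUnion F.finite_toSet fun g _ => finite_large k t g _ hη
  obtain ⟨n, hn⟩ := hfin.exists_notMem
  simp only [Set.mem_iUnion, Set.mem_ofPred_eq, not_exists, not_le] at hn
  obtain ⟨y, hy1, hy2⟩ := h (emb k (e (n :: t))) (1 / (4 * C)) hη.le fun g hg => (hn g hg).le
  refine ⟨n, y, hy1, hy2.trans (le_of_eq ?_)⟩
  field_simp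

end NonAUS

open NonAUS

/-- The `ℓ₂`-sum of the spaces `XK k` is not AUS-able. -/
theorem not_ausable_XX : ¬ AUSable XX := by
  rintro ⟨N, hadd, hsmul, ⟨c, C, hc, hC, hcC⟩, haus⟩
  obtain ⟨δ, hδ, haus⟩ := haus (c / (8 * C)) (by positivity)
  obtain ⟨K, hK1, hK2⟩ : ∃ K : ℝ, 1 ≤ K ∧ 2 * C / δ < c * K := by
    refine ⟨max 1 (2 * C / (δ * c) + 1), le_max_left _ _, ?_⟩
    have h1 : 2 * C / (δ * c) + 1 ≤ max 1 (2 * C / (δ * c) + 1) := le_max_right _ _
    have h2 : c * (2 * C / (δ * c) + 1) ≤ c * max 1 (2 * C / (δ * c) + 1) :=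
      mul_le_mul_of_nonneg_left h1 hc.le
    have h3 : c * (2 * C / (δ * c) + 1) = 2 * C / δ + c := by
      field_simp
    linarith
  have hK0 : 0 ≤ K := by linarith
  obtain ⟨k, hk⟩ : ∃ k : ℕ, C * K < k * (c / 4) := by
    obtain ⟨k, hk⟩ := exists_nat_gt (C * K / (c / 4))
    exact ⟨k, (div_lt_iff₀ (by positivity)).1 hk⟩
  have key : ∀ i : ℕ, i ≤ k → ∃ (t : List ℕ) (u : XX), t.length = i ∧
      N u ≤ C * K + i * (c / 4) ∧ ‖u - emb k (z K t)‖ ≤ i / 4 := by
    intro i
    induction i with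
    | zero =>
      intro _
      refine ⟨[], emb k (z K []), rfl, ?_, by simp⟩
      refine (hcC _).2.trans ?_
      have := mul_le_mul_of_nonneg_left (norm_emb_z_nil k K hK0) hC.le
      simpa using this
    | succ i ih =>
      intro hi
      obtain ⟨t, u, ht, hu1, hu2⟩ := ih (by omega)
      have h1 : K + i ≤ ‖emb k (z K t)‖ := by
        rw [← ht]
        exact le_norm_emb_z k K hK0 t (by omega)
      have h2 : K ≤ ‖u‖ := by
        have h3 : ‖emb k (z K t)‖ ≤ ‖u‖ + ‖u - emb k (z K t)‖ := by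
          have := norm_sub_le u (u - emb k (z K t))
          rwa [sub_sub_cancel] at this
        have h4 : (0 : ℝ) ≤ i := Nat.cast_nonneg i
        linarith
      have h3 : c * K ≤ N u := (mul_le_mul_of_nonneg_left h2 hc.le).trans (hcC u).1
      have hNu : 0 < N u := lt_of_lt_of_le (by positivity) h3
      have hτ : 2 * C / N u < δ := by
        rw [div_lt_iff₀ hNu]
        rw [div_lt_iff₀ hδ] at hK2
        nlinarith
      obtain ⟨F, hF⟩ := haus (2 * C / N u) (by positivity) hτ ((N u)⁻¹ • u) (by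
        rw [hsmul, abs_of_pos (inv_pos.2 hNu), inv_mul_cancel₀ hNu.ne'])
      obtain ⟨n, y, hy1, hy2⟩ := exists_child k t F
      have hy3 : ‖y‖ ≤ 2 := by
        have h4 : ‖y‖ ≤ ‖y - emb k (e (n :: t))‖ + ‖emb k (e (n :: t))‖ := by
          have := norm_add_le (y - emb k (e (n :: t))) (emb k (e (n :: t)))
          rwa [sub_add_cancel] at this
        have h5 := norm_emb_e_le k (n :: t)
        linarith
      have hy4 : N y ≤ 2 * C := by
        have := mul_le_mul_of_nonneg_left hy3 hC.le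
        linarith [(hcC y).2]
      have h6 := hF ((N u)⁻¹ • y) (fun g hg => by rw [map_smul, hy1 g hg, smul_zero]) (by
        rw [hsmul, abs_of_pos (inv_pos.2 hNu), inv_mul_eq_div]
        exact div_le_div_of_nonneg_right hy4 hNu.le)
      rw [← smul_add, hsmul, abs_of_pos (inv_pos.2 hNu), inv_mul_le_iff₀ hNu] at h6
      have h7 : N u * (1 + c / (8 * C) * (2 * C / N u)) = N u + c / 4 := by
        field_simp
        ring
      rw [h7] at h6
      refine ⟨n :: t, u + y, by simp [ht], ?_, ?_⟩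
      · push_cast
        linarith
      · have h8 : u + y - emb k (z K (n :: t)) =
            (u - emb k (z K t)) + (y - emb k (e (n :: t))) := by
          simp only [z, map_add]
          abel
        rw [h8]
        refine (norm_add_le _ _).trans ?_
        push_cast
        linarith
  obtain ⟨t, u, ht, hu1, hu2⟩ := key k le_rfl
  have h1 : K + k ≤ ‖emb k (z K t)‖ := by
    have := le_norm_emb_z k K hK0 t ht.le
    rwa [ht] at this
  have h2 : K + k - k / 4 ≤ ‖u‖ := by
    have h3 : ‖emb k (z K t)‖ ≤ ‖u‖ + ‖u - emb k (z K t)‖ := by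
      have := norm_sub_le u (u - emb k (z K t))
      rwa [sub_sub_cancel] at this
    linarith
  have h3 : c * (K + k - k / 4) ≤ N u := (mul_le_mul_of_nonneg_left h2 hc.le).trans (hcC u).1
  have h4 : (0 : ℝ) ≤ k := Nat.cast_nonneg k
  nlinarith [mul_nonneg hc.le hK0, mul_nonneg hc.le h4]

end Pool.Agent.Helper91.CLR
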