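import Mathlib
import Pool.Agent.Helper91.CLR.Defs

set_option autoImplicit false

open scoped ENNReal

namespace Pool.Agent.Helper91.CLR

/-- It is enough to have the estimate at approximants `w` of `u`. -/
theorem propU_of_approx (X : Type) [NormedAddCommGroup X] [NormedSpace ℝ X]
    (h : ∀ u : X, ∀ η : ℝ, 0 < η → ∀ ε : ℝ, 0 < ε → ∃ w : X, ‖w‖ ≤ ‖u‖ ∧ ‖u - w‖ ≤ η ∧
      ∃ F : Finset (X →L[ℝ] ℝ), ∀ y : X, (∀ g ∈ F, g y = 0) → ‖y‖ ≤ 1 →
        ‖w + y‖ ^ 2 ≤ ‖w‖ ^ 2 + ‖y‖ ^ 2 + ε) : PropU X := by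
  intro u ε hε
  have hK : 0 < 2 * (2 * ‖u‖ + 3) := by positivity
  obtain ⟨w, hw1, hw2, F, hF⟩ := h u (min 1 (ε / (2 * (2 * ‖u‖ + 3))))
    (lt_min one_pos (by positivity)) (ε / 2) (by positivity)
  refine ⟨F, fun y hy hy1 => ?_⟩
  have h1 := hF y hy hy1
  set η := min 1 (ε / (2 * (2 * ‖u‖ + 3))) with hη
  have hη1 : η ≤ 1 := min_le_left _ _
  have hη2 : η ≤ ε / (2 * (2 * ‖u‖ + 3)) := min_le_right _ _
  have hη0 : 0 < η := lt_min one_pos (by positivity)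
  have hη3 : η * (2 * (2 * ‖u‖ + 3)) ≤ ε := by
    rwa [le_div_iff₀ hK] at hη2
  have h2 : ‖u + y‖ ≤ ‖w + y‖ + η := by
    have : u + y = (w + y) + (u - w) := by abel
    rw [this]
    exact (norm_add_le _ _).trans (by linarith)
  have h3 : ‖w + y‖ ≤ ‖u‖ + 1 := (norm_add_le _ _).trans (by linarith)
  have h4 : ‖u + y‖ ^ 2 ≤ (‖w + y‖ + η) ^ 2 := by
    gcongr
  have h5 : ‖w‖ ^ 2 ≤ ‖u‖ ^ 2 := by gcongr
  have h6 : 0 ≤ ‖w + y‖ := norm_nonneg _
  nlinarith [mul_le_mul_of_nonneg_left h3 hη0.le, mul_le_mul_of_nonneg_left hη1 hη0.le]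

variable {ι : Type}

/-- truncations -/
noncomputable def trunc {E : ι → Type} [∀ i, NormedAddCommGroup (E i)] (p : ℝ≥0∞)
    (u : lp E p) (s : Finset ι) : lp E p := by
  classical
  exact ∑ i ∈ s, lp.single p i (u i)

theorem trunc_apply_mem {E : ι → Type} [∀ i, NormedAddCommGroup (E i)] (p : ℝ≥0∞)
    (u : lp E p) (s : Finset ι) (i : ι) (hi : i ∈ s) : trunc p u s i = u i := by
  classical
  unfold trunc
  rw [lp.coeFn_sum]
  simp only [lp.coeFn_single]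
  erw [Finset.sum_apply]
  rw [Finset.sum_pi_single, if_pos hi]

theorem trunc_apply_notMem {E : ι → Type} [∀ i, NormedAddCommGroup (E i)] (p : ℝ≥0∞)
    (u : lp E p) (s : Finset ι) (i : ι) (hi : i ∉ s) : trunc p u s i = 0 := by
  classical
  unfold trunc
  rw [lp.coeFn_sum]
  simp only [lp.coeFn_single]
  erw [Finset.sum_apply]
  rw [Finset.sum_pi_single, if_neg hi]

theorem exists_trunc {E : ι → Type} [∀ i, NormedAddCommGroup (E i)] (p : ℝ≥0∞) [Fact (1 ≤ p)]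
    (hp : p ≠ ⊤) (u : lp E p) (η : ℝ) (hη : 0 < η) : ∃ s : Finset ι, ‖u - trunc p u s‖ ≤ η := by
  classical
  have h := lp.hasSum_single hp u
  have h1 := (Metric.tendsto_atTop.1 h) η hη
  obtain ⟨s, hs⟩ := h1
  refine ⟨s, ?_⟩
  have := hs s le_rfl
  rw [dist_comm, dist_eq_norm] at this
  simpa [trunc] using this.le

theorem norm_trunc_le {E : ι → Type} [∀ i, NormedAddCommGroup (E i)] (p : ℝ≥0∞) [Fact (1 ≤ p)]
    (hp : p ≠ ⊤) (u : lp E p) (s : Finset ι) : ‖trunc p u s‖ ≤ ‖u‖ := by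
  classical
  have hp0 : 0 < p.toReal := by
    have h1 : (1 : ℝ≥0∞) ≤ p := Fact.out
    exact ENNReal.toReal_pos (by rintro rfl; simp at h1) hp
  have h1 : ‖trunc p u s‖ ^ p.toReal ≤ ‖u‖ ^ p.toReal := by
    have := lp.norm_sum_single hp0 (fun i => u i) s
    have h2 := lp.sum_rpow_le_norm_rpow hp0 u s
    have h3 : ‖trunc p u s‖ ^ p.toReal = ∑ i ∈ s, ‖u i‖ ^ p.toReal := this
    rw [h3]
    exact h2
  exact (Real.rpow_le_rpow_iff (norm_nonneg _) (norm_nonneg _) hp0).1 h1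

theorem propU_lp_real {ι : Type} (p : ℝ≥0∞) [Fact (1 ≤ p)] (hp2 : 2 ≤ p.toReal) (hp : p ≠ ⊤) :
    PropU (lp (fun _ : ι => ℝ) p) := by
  classical
  apply propU_of_approx
  intro u η hη ε hε
  obtain ⟨s, hs⟩ := exists_trunc p hp u η hη
  refine ⟨trunc p u s, norm_trunc_le p hp u s, hs,
    s.image (fun i => lp.evalCLM ℝ (fun _ : ι => ℝ) p i), ?_⟩
  intro y hy hy1
  have hp0 : 0 < p.toReal := by linarith
  have hy0 : ∀ i ∈ s, y i = 0 := by
    intro i hi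
    exact hy _ (Finset.mem_image_of_mem _ hi)
  set w := trunc p u s with hw
  have hsplit : ∀ i, ‖(w + y : lp (fun _ : ι => ℝ) p) i‖ ^ p.toReal
      = ‖w i‖ ^ p.toReal + ‖y i‖ ^ p.toReal := by
    intro i
    by_cases hi : i ∈ s
    · simp [hy0 i hi, Real.zero_rpow hp0.ne']
    · have : w i = 0 := trunc_apply_notMem p u s i hi
      simp [this, Real.zero_rpow hp0.ne']
  have hnorm : ‖w + y‖ ^ p.toReal = ‖w‖ ^ p.toReal + ‖y‖ ^ p.toReal := by
    have h1 := lp.hasSum_norm hp0 (w + y)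
    have h2 := (lp.hasSum_norm hp0 w).add (lp.hasSum_norm hp0 y)
    have h3 : (fun i => ‖(w + y : lp (fun _ : ι => ℝ) p) i‖ ^ p.toReal)
      = fun i => ‖w i‖ ^ p.toReal + ‖y i‖ ^ p.toReal := funext hsplit
    rw [h3] at h1
    exact h1.unique h2
  have hle : (‖w + y‖ ^ 2) ^ (p.toReal / 2) ≤ (‖w‖ ^ 2 + ‖y‖ ^ 2) ^ (p.toReal / 2) := by
    have e : ∀ a : ℝ, 0 ≤ a → (a ^ 2) ^ (p.toReal / 2) = a ^ p.toReal := by
      intro a ha
      rw [← Real.rpow_natCast a 2, ← Real.rpow_mul ha]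
      congr 1
      push_cast
      ring
    rw [e _ (norm_nonneg _), hnorm, ← e _ (norm_nonneg w), ← e _ (norm_nonneg y)]
    exact Real.add_rpow_le_rpow_add (by positivity) (by positivity) (by linarith)
  have := (Real.rpow_le_rpow_iff (by positivity) (by positivity) (by positivity)).1 hle
  linarith

theorem propU_lp_two {ι : Type} (E : ι → Type) [∀ i, NormedAddCommGroup (E i)]
    [∀ i, NormedSpace ℝ (E i)] (hE : ∀ i, PropU (E i)) : PropU (lp E 2) := by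
  classical
  apply propU_of_approx
  intro u η hη ε hε
  obtain ⟨s, hs⟩ := exists_trunc 2 (by simp) u η hη
  have hc : (0 : ℝ) < s.card + 1 := by positivity
  choose G hG using fun i : ι => hE i (u i) (ε / (s.card + 1)) (by positivity)
  refine ⟨trunc 2 u s, norm_trunc_le 2 (by simp) u s, hs,
    s.biUnion (fun i => (G i).image (fun g => g.comp (lp.evalCLM ℝ E 2 i))), ?_⟩
  intro y hy hy1
  have hy0 : ∀ i ∈ s, ∀ g ∈ G i, g (y i) = 0 := by
    intro i hi g hg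
    exact hy _ (Finset.mem_biUnion.2 ⟨i, hi, Finset.mem_image_of_mem _ hg⟩)
  set w := trunc 2 u s with hw
  have hsq : ∀ v : lp E 2, HasSum (fun i => ‖v i‖ ^ 2) (‖v‖ ^ 2) := by
    intro v
    have := lp.hasSum_norm (p := 2) (by norm_num) v
    simpa [ENNReal.toReal_ofNat, Real.rpow_two] using this
  have hterm : ∀ i, ‖(w + y : lp E 2) i‖ ^ 2
      ≤ ‖w i‖ ^ 2 + ‖y i‖ ^ 2 + (if i ∈ s then ε / (s.card + 1) else 0) := by
    intro i
    rw [lp.coeFn_add, Pi.add_apply]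
    by_cases hi : i ∈ s
    · have h1 : w i = u i := trunc_apply_mem 2 u s i hi
      rw [h1, if_pos hi]
      exact hG i (y i) (hy0 i hi) ((lp.norm_apply_le_norm (by norm_num) y i).trans hy1)
    · have h1 : w i = 0 := trunc_apply_notMem 2 u s i hi
      rw [h1, if_neg hi]
      simp
  have hsum : HasSum (fun i => ‖w i‖ ^ 2 + ‖y i‖ ^ 2 + (if i ∈ s then ε / (s.card + 1) else 0))
      (‖w‖ ^ 2 + ‖y‖ ^ 2 + ∑ i ∈ s, ε / (s.card + 1)) := by
    refine ((hsq w).add (hsq y)).add ?_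
    have h2 : ∑ i ∈ s, ε / (s.card + 1) = ∑ i ∈ s, (if i ∈ s then ε / (s.card + 1) else 0) :=
      Finset.sum_congr rfl (fun i hi => by rw [if_pos hi])
    rw [h2]
    exact hasSum_sum_of_ne_finset_zero (fun i hi => if_neg hi)
  have hfin := hasSum_le hterm (hsq (w + y)) hsum
  have hcard : ∑ i ∈ s, ε / ((s.card : ℝ) + 1) ≤ ε := by
    rw [Finset.sum_const, nsmul_eq_mul, mul_div_assoc', div_le_iff₀ hc]
    nlinarith
  linarith

theorem ausable_of_propU (Y : Type) [NormedAddCommGroup Y] [NormedSpace ℝ Y] (h : PropU Y) :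
    AUSable Y := by
  refine ⟨fun x => ‖x‖, norm_add_le, fun a x => by simp [norm_smul, Real.norm_eq_abs],
    ⟨1, 1, one_pos, one_pos, fun x => ⟨by simp, by simp⟩⟩, ?_⟩
  intro ε hε
  refine ⟨min ε 1, lt_min hε one_pos, ?_⟩
  intro t ht htδ x hx
  have ht1 : t < 1 := lt_of_lt_of_le htδ (min_le_right _ _)
  have htε : t < ε := lt_of_lt_of_le htδ (min_le_left _ _)
  obtain ⟨F, hF⟩ := h x (ε * t) (by positivity)
  refine ⟨F, fun y hy hyt => ?_⟩
  have h1 := hF y hy (hyt.trans ht1.le)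
  simp only at hx hyt
  rw [hx] at h1
  have h2 : ‖y‖ ^ 2 ≤ t ^ 2 := by gcongr
  have h3 : ‖x + y‖ ^ 2 ≤ (1 + ε * t) ^ 2 := by nlinarith [mul_pos hε ht]
  have h4 : 0 ≤ 1 + ε * t := by positivity
  exact le_of_sq_le_sq h3 h4

end Pool.Agent.Helper91.CLR
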