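import Mathlib
import Pool.Agent.Helper91.CLR.Defs

set_option autoImplicit false

open scoped ENNReal Topology
open Filter

namespace Pool.Agent.Helper91.CLR

theorem refl_real : Refl ℝ := by
  intro Φ
  refine ⟨Φ (ContinuousLinearMap.id ℝ ℝ), ?_⟩
  ext g
  rw [NormedSpace.dual_def]
  have hg : g = (g 1) • (ContinuousLinearMap.id ℝ ℝ) := by
    ext; simp
  conv_rhs => rw [hg, map_smul, smul_eq_mul]
  conv_lhs => rw [hg]
  simp

section LP

variable {ι : Type} {E : ι → Type} [∀ i, NormedAddCommGroup (E i)] [∀ i, NormedSpace ℝ (E i)]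
  {p : ℝ≥0∞} [Fact (1 ≤ p)]

open Classical in
/-- The projection onto the coordinates in `s`. -/
noncomputable def PP (E : ι → Type) [∀ i, NormedAddCommGroup (E i)] [∀ i, NormedSpace ℝ (E i)]
    (p : ℝ≥0∞) [Fact (1 ≤ p)] (s : Finset ι) : lp E p →L[ℝ] lp E p :=
  ∑ i ∈ s, (lp.singleContinuousLinearMap ℝ E p i).comp (lp.evalCLM ℝ E p i)

open Classical in
lemma PP_apply (s : Finset ι) (f : lp E p) :
    PP E p s f = ∑ i ∈ s, lp.single p i (f i) := by
  simp [PP, lp.evalCLM]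

open Classical in
lemma PP_coord (s : Finset ι) (f : lp E p) (i : ι) :
    (PP E p s f) i = if i ∈ s then f i else 0 := by
  rw [PP_apply, lp.coeFn_sum, Finset.sum_apply]
  simp only [lp.coeFn_single]
  rw [Finset.sum_pi_single]

lemma PP_norm_le (hp0 : 0 < p.toReal) (s : Finset ι) (f : lp E p) : ‖PP E p s f‖ ≤ ‖f‖ := by
  classical
  have h1 : ‖PP E p s f‖ ^ p.toReal ≤ ‖f‖ ^ p.toReal := by
    rw [PP_apply, lp.norm_sum_single hp0]
    exact lp.sum_rpow_le_norm_rpow hp0 f s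
  exact (Real.rpow_le_rpow_iff (norm_nonneg _) (norm_nonneg _) hp0).1 h1

lemma PPc_norm_le (hp0 : 0 < p.toReal) (s : Finset ι) (f : lp E p) : ‖f - PP E p s f‖ ≤ ‖f‖ := by
  classical
  have h1 : ‖f - PP E p s f‖ ^ p.toReal ≤ ‖f‖ ^ p.toReal := by
    rw [PP_apply, lp.norm_compl_sum_single hp0]
    have : 0 ≤ ∑ i ∈ s, ‖f i‖ ^ p.toReal :=
      Finset.sum_nonneg fun i _ => Real.rpow_nonneg (norm_nonneg _) _
    linarith
  exact (Real.rpow_le_rpow_iff (norm_nonneg _) (norm_nonneg _) hp0).1 h1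

lemma PP_split (hp0 : 0 < p.toReal) (s : Finset ι) (u g : lp E p) (hg : ∀ i ∈ s, g i = 0) :
    ‖PP E p s u + g‖ ^ p.toReal = ‖PP E p s u‖ ^ p.toReal + ‖g‖ ^ p.toReal := by
  classical
  have h := lp.norm_compl_sum_single hp0 (PP E p s u + g) s
  rw [← PP_apply] at h
  have h2 : PP E p s (PP E p s u + g) = PP E p s u := by
    apply lp.ext
    funext i
    rw [PP_coord, PP_coord]
    by_cases hi : i ∈ s
    · simp [hi, PP_coord, hg i hi]
    · simp [hi]
  have h3 : PP E p s u + g - PP E p s (PP E p s u + g) = g := by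
    rw [h2]; abel
  rw [h3] at h
  have h4 : ∑ i ∈ s, ‖(PP E p s u + g) i‖ ^ p.toReal = ‖PP E p s u‖ ^ p.toReal := by
    rw [PP_apply s u, lp.norm_sum_single hp0]
    apply Finset.sum_congr rfl
    intro i hi
    rw [lp.coeFn_add, Pi.add_apply, ← PP_apply, PP_coord, if_pos hi, hg i hi, add_zero]
  rw [h4] at h
  linarith

lemma PP_tendsto (hp : p ≠ ⊤) (f : lp E p) :
    Tendsto (fun s => PP E p s f) atTop (𝓝 f) := by
  classical
  have h := lp.hasSum_single hp f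
  have h2 : (fun s => PP E p s f) = fun s => ∑ i ∈ s, lp.single p i (f i) := by
    funext s; exact PP_apply s f
  rw [h2]
  exact h

/-- Functionals on `lp E p`, `1 < p < ∞`, are small outside a finite set of coordinates. -/
lemma shrinking (hp1 : 1 < p.toReal) (hp : p ≠ ⊤) (φ : lp E p →L[ℝ] ℝ) (ε : ℝ) (hε : 0 < ε) :
    ∃ s : Finset ι, ∀ g : lp E p, (∀ i ∈ s, g i = 0) → |φ g| ≤ ε * ‖g‖ := by
  have hp0 : 0 < p.toReal := by linarith
  set M := ‖φ‖ with hM
  have hM0 : 0 ≤ M := norm_nonneg _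
  -- choose t
  obtain ⟨t, ht0, htM⟩ : ∃ t : ℝ, 0 < t ∧ M * t ^ (p.toReal - 1) ≤ ε / 2 := by
    have h1 : Tendsto (fun t : ℝ => M * t ^ (p.toReal - 1)) (𝓝[>] 0) (𝓝 0) := by
      have h2 : ContinuousAt (fun t : ℝ => M * t ^ (p.toReal - 1)) 0 := by
        apply ContinuousAt.mul continuousAt_const
        exact Real.continuousAt_rpow_const 0 _ (Or.inr (by linarith))
      have h3 := h2.tendsto
      simp only [Real.zero_rpow (by linarith : p.toReal - 1 ≠ 0), mul_zero] at h3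
      exact h3.mono_left nhdsWithin_le_nhds
    have h4 : ∀ᶠ t in 𝓝[>] (0:ℝ), M * t ^ (p.toReal - 1) < ε / 2 :=
      h1.eventually_lt_const (by linarith)
    have h5 : ∀ᶠ t in 𝓝[>] (0:ℝ), 0 < t := eventually_mem_nhdsWithin
    obtain ⟨t, h6, h7⟩ := (h4.and h5).exists
    exact ⟨t, h7, h6.le⟩
  set η := ε * t / 2 with hη
  have hη0 : 0 < η := by positivity
  -- nearly norming vector
  obtain ⟨u0, hu0, hφu0⟩ : ∃ u0 : lp E p, ‖u0‖ ≤ 1 ∧ M - η < φ u0 := by
    by_contra hcon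
    push Not at hcon
    have hb : ∀ x : lp E p, ‖φ x‖ ≤ (max (M - η) 0) * ‖x‖ := by
      intro x
      by_cases hx : x = 0
      · simp [hx]
      have hxn : 0 < ‖x‖ := norm_pos_iff.2 hx
      have key : ∀ z : lp E p, ‖z‖ = ‖x‖ → φ z ≤ (M - η) * ‖x‖ := by
        intro z hz
        have hz2 := hcon ((‖x‖)⁻¹ • z) (by
          rw [norm_smul, hz, norm_inv, norm_norm, inv_mul_cancel₀ hxn.ne'])
        rw [map_smul, smul_eq_mul] at hz2
        have := mul_le_mul_of_nonneg_left hz2 hxn.le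
        rw [← mul_assoc, mul_inv_cancel₀ hxn.ne', one_mul] at this
        linarith [mul_comm ‖x‖ (M - η)]
      rw [Real.norm_eq_abs, abs_le]
      have h1 := key x rfl
      have h2 := key (-x) (norm_neg x)
      rw [map_neg] at h2
      have h3 : (M - η) * ‖x‖ ≤ max (M - η) 0 * ‖x‖ :=
        mul_le_mul_of_nonneg_right (le_max_left _ _) hxn.le
      constructor <;> linarith
    have hle : M ≤ max (M - η) 0 := φ.opNorm_le_bound (le_max_right _ _) hb
    rcases le_max_iff.1 hle with h | h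
    · linarith
    · have hMz : M = 0 := le_antisymm h hM0
      have := hcon 0 (by simp)
      rw [map_zero] at this
      linarith
  -- truncation
  have hlim : Tendsto (fun s => φ (PP E p s u0)) atTop (𝓝 (φ u0)) :=
    (φ.continuous.tendsto _).comp (PP_tendsto hp u0)
  obtain ⟨s, hs⟩ := (hlim.eventually_const_lt hφu0).exists
  refine ⟨s, ?_⟩
  have hu1 : ‖PP E p s u0‖ ≤ 1 := (PP_norm_le hp0 s u0).trans hu0
  -- main estimate for unit vectors
  have main : ∀ g : lp E p, (∀ i ∈ s, g i = 0) → ‖g‖ ≤ 1 → φ g ≤ ε := by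
    intro g hg hg1
    have htg : ∀ i ∈ s, (t • g) i = 0 := by
      intro i hi
      rw [lp.coeFn_smul, Pi.smul_apply, hg i hi, smul_zero]
    have h1 := PP_split hp0 s u0 (t • g) htg
    have h2 : ‖PP E p s u0 + t • g‖ ^ p.toReal ≤ 1 + t ^ p.toReal := by
      rw [h1]
      apply add_le_add
      · exact Real.rpow_le_one (norm_nonneg _) hu1 hp0.le
      · apply Real.rpow_le_rpow (norm_nonneg _) _ hp0.le
        rw [norm_smul, Real.norm_eq_abs, abs_of_pos ht0]
        nlinarith [norm_nonneg g]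
    have htp : 0 ≤ t ^ p.toReal := Real.rpow_nonneg ht0.le _
    have h3 : ‖PP E p s u0 + t • g‖ ≤ 1 + t ^ p.toReal := by
      have h4 : ‖PP E p s u0 + t • g‖ ^ p.toReal ≤ (1 + t ^ p.toReal) ^ p.toReal := by
        refine h2.trans ?_
        calc 1 + t ^ p.toReal = (1 + t ^ p.toReal) ^ (1:ℝ) := (Real.rpow_one _).symm
          _ ≤ (1 + t ^ p.toReal) ^ p.toReal :=
            Real.rpow_le_rpow_of_exponent_le (by linarith) hp1.le
      exact (Real.rpow_le_rpow_iff (norm_nonneg _) (by linarith) hp0).1 h4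
    have h5 : φ (PP E p s u0 + t • g) ≤ M * (1 + t ^ p.toReal) := by
      calc φ (PP E p s u0 + t • g) ≤ ‖φ (PP E p s u0 + t • g)‖ := le_abs_self _
        _ ≤ M * ‖PP E p s u0 + t • g‖ := φ.le_opNorm _
        _ ≤ M * (1 + t ^ p.toReal) := mul_le_mul_of_nonneg_left h3 hM0
    rw [map_add, map_smul, smul_eq_mul] at h5
    have h6 : t * φ g ≤ M * t ^ p.toReal + η := by linarith
    have h7 : t ^ p.toReal = t * t ^ (p.toReal - 1) := by
      rw [← Real.rpow_one_add' ht0.le (by linarith)]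
      congr 1; ring
    have h8 : M * t ^ p.toReal ≤ t * (ε / 2) := by
      rw [h7]
      calc M * (t * t ^ (p.toReal - 1)) = t * (M * t ^ (p.toReal - 1)) := by ring
        _ ≤ t * (ε / 2) := mul_le_mul_of_nonneg_left htM ht0.le
    have h9 : t * φ g ≤ t * ε := by
      have : η = t * (ε / 2) := by rw [hη]; ring
      linarith
    exact le_of_mul_le_mul_left h9 ht0
  intro g hg
  by_cases hg0 : g = 0
  · simp [hg0]
  have hgn : 0 < ‖g‖ := norm_pos_iff.2 hg0
  have key : ∀ z : lp E p, ‖z‖ = ‖g‖ → (∀ i ∈ s, z i = 0) → φ z ≤ ε * ‖g‖ := by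
    intro z hz hz0
    have h1 := main ((‖g‖)⁻¹ • z) (by
      intro i hi
      rw [lp.coeFn_smul, Pi.smul_apply, hz0 i hi, smul_zero]) (by
      rw [norm_smul, hz, norm_inv, norm_norm, inv_mul_cancel₀ hgn.ne'])
    rw [map_smul, smul_eq_mul] at h1
    have := mul_le_mul_of_nonneg_left h1 hgn.le
    rw [← mul_assoc, mul_inv_cancel₀ hgn.ne', one_mul] at this
    linarith [mul_comm ‖g‖ ε]
  rw [abs_le]
  have h1 := key g rfl hg
  have h2 := key (-g) (norm_neg g) (by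
    intro i hi
    rw [lp.coeFn_neg, Pi.neg_apply, hg i hi, neg_zero])
  rw [map_neg] at h2
  constructor <;> linarith

end LP

theorem refl_lp {ι : Type} (E : ι → Type) [∀ i, NormedAddCommGroup (E i)]
    [∀ i, NormedSpace ℝ (E i)] (p : ℝ≥0∞) [Fact (1 ≤ p)] (hp1 : 1 < p.toReal) (hp : p ≠ ⊤)
    (hE : ∀ i, Refl (E i)) : Refl (lp E p) := by
  classical
  intro Φ
  have hp0 : 0 < p.toReal := by linarith
  -- coordinates
  have hy : ∀ i, ∃ y : E i, ∀ g : E i →L[ℝ] ℝ, g y = Φ (g.comp (lp.evalCLM ℝ E p i)) := by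
    intro i
    obtain ⟨y, hy⟩ := hE i (Φ.comp
      ((ContinuousLinearMap.compL ℝ (lp E p) (E i) ℝ).flip (lp.evalCLM ℝ E p i)))
    refine ⟨y, fun g => ?_⟩
    have := congrArg (fun F => F g) hy
    simp only [NormedSpace.dual_def] at this
    rw [this]
    rfl
  choose y hy using hy
  -- the key identity
  have key : ∀ (s : Finset ι) (g : lp E p →L[ℝ] ℝ),
      g (∑ i ∈ s, lp.single p i (y i)) = Φ (g.comp (PP E p s)) := by
    intro s g
    rw [map_sum]
    have h1 : g.comp (PP E p s) =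
        ∑ i ∈ s, (g.comp (lp.singleContinuousLinearMap ℝ E p i)).comp (lp.evalCLM ℝ E p i) := by
      ext x
      simp [PP]
    rw [h1, map_sum]
    apply Finset.sum_congr rfl
    intro i _
    rw [← hy i (g.comp (lp.singleContinuousLinearMap ℝ E p i))]
    rfl
  have hbound : ∀ s : Finset ι, ‖(∑ i ∈ s, lp.single p i (y i) : lp E p)‖ ≤ ‖Φ‖ := by
    intro s
    have hΦ0 : 0 ≤ ‖Φ‖ := norm_nonneg Φ
    refine NormedSpace.norm_le_dual_bound ℝ _ hΦ0 ?_
    intro g
    rw [key s g]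
    calc ‖Φ (g.comp (PP E p s))‖ ≤ ‖Φ‖ * ‖g.comp (PP E p s)‖ := Φ.le_opNorm _
      _ ≤ ‖Φ‖ * ‖g‖ := by
        refine mul_le_mul_of_nonneg_left ?_ hΦ0
        refine ContinuousLinearMap.opNorm_le_bound _ (norm_nonneg g) ?_
        intro x
        calc ‖g (PP E p s x)‖ ≤ ‖g‖ * ‖PP E p s x‖ := g.le_opNorm _
          _ ≤ ‖g‖ * ‖x‖ := mul_le_mul_of_nonneg_left (PP_norm_le hp0 s x) (norm_nonneg _)
  have hmem : Memℓp y p := by
    apply memℓp_gen' (C := ‖Φ‖ ^ p.toReal)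
    intro s
    rw [← lp.norm_sum_single hp0]
    exact Real.rpow_le_rpow (norm_nonneg _) (hbound s) hp0.le
  let Y : lp E p := ⟨y, hmem⟩
  refine ⟨Y, ?_⟩
  ext g
  rw [NormedSpace.dual_def]
  have hYs : ∀ s, PP E p s Y = ∑ i ∈ s, lp.single p i (y i) := fun s => PP_apply s Y
  have hΦ0 : 0 ≤ ‖Φ‖ := norm_nonneg Φ
  have hY0 : 0 ≤ ‖Y‖ := norm_nonneg Y
  -- it suffices to bound the difference by `ε * C`
  have hfin : ∀ ε : ℝ, 0 < ε → |g Y - Φ g| ≤ ε * (‖Y‖ + ‖Φ‖) := by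
    intro ε hε
    obtain ⟨s, hs⟩ := shrinking hp1 hp g ε hε
    have h1 : |g (Y - PP E p s Y)| ≤ ε * ‖Y‖ := by
      refine (hs _ ?_).trans (mul_le_mul_of_nonneg_left (PPc_norm_le hp0 s Y) hε.le)
      intro i hi
      rw [lp.coeFn_sub, Pi.sub_apply, PP_coord, if_pos hi, sub_self]
    have h2 : ‖g - g.comp (PP E p s)‖ ≤ ε := by
      apply ContinuousLinearMap.opNorm_le_bound _ hε.le
      intro x
      have : (g - g.comp (PP E p s)) x = g (x - PP E p s x) := by
        simp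
      rw [this, Real.norm_eq_abs]
      refine (hs _ ?_).trans (mul_le_mul_of_nonneg_left (PPc_norm_le hp0 s x) hε.le)
      intro i hi
      rw [lp.coeFn_sub, Pi.sub_apply, PP_coord, if_pos hi, sub_self]
    have h3 : |Φ (g - g.comp (PP E p s))| ≤ ‖Φ‖ * ε :=
      (Φ.le_opNorm _).trans (mul_le_mul_of_nonneg_left h2 hΦ0)
    rw [map_sub, ← key s g, ← hYs s] at h3
    rw [map_sub] at h1
    have : g Y - Φ g = (g Y - g (PP E p s Y)) - (Φ g - g (PP E p s Y)) := by ring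
    rw [this]
    calc |(g Y - g (PP E p s Y)) - (Φ g - g (PP E p s Y))|
        ≤ |g Y - g (PP E p s Y)| + |Φ g - g (PP E p s Y)| := abs_sub _ _
      _ ≤ ε * ‖Y‖ + ‖Φ‖ * ε := add_le_add h1 h3
      _ = ε * (‖Y‖ + ‖Φ‖) := by ring
  by_contra hne
  have hd : 0 < |g Y - Φ g| := abs_pos.2 (sub_ne_zero.2 hne)
  have hC : 0 < ‖Y‖ + ‖Φ‖ + 1 := by positivity
  have h := hfin (|g Y - Φ g| / (2 * (‖Y‖ + ‖Φ‖ + 1))) (by positivity)
  have h2 : |g Y - Φ g| / (2 * (‖Y‖ + ‖Φ‖ + 1)) * (‖Y‖ + ‖Φ‖) ≤ |g Y - Φ g| / 2 := by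
    rw [div_mul_eq_mul_div, div_le_div_iff₀ (by positivity) (by norm_num)]
    nlinarith
  linarith

end Pool.Agent.Helper91.CLR
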