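import Mathlib
import Pool.Agent.Helper91.CLR.Embed
import Pool.Agent.Helper91.CLR.PropU
import Pool.Agent.Helper91.CLR.Refl
import Pool.Agent.Helper91.CLR.NonAUS

set_option autoImplicit false

open scoped ENNReal

namespace Pool.Agent.Helper91.CLR

/-! ### Gluing coordinate maps into an `ℓ₂`-sum -/

section Combine

variable {ι : Type} {Z : Type} [NormedAddCommGroup Z] {E : ι → Type}
  [∀ i, NormedAddCommGroup (E i)]

theorem combine_mem (g : ∀ i, Z → E i) (L : ℝ) (h0 : ∀ i, g i 0 = 0)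
    (hg : ∀ (s : Finset ι) (x y : Z), ∑ i ∈ s, ‖g i x - g i y‖ ^ 2 ≤ L ^ 2 * ‖x - y‖ ^ 2) (x : Z) :
    Memℓp (fun i => g i x) 2 := by
  refine memℓp_gen' (C := L ^ 2 * ‖x‖ ^ 2) fun s => ?_
  have := hg s x 0
  simp only [h0, sub_zero] at this
  simpa using this

theorem combine_lip (f : Z → lp E 2) (L : ℝ) (hL : 0 ≤ L)
    (hg : ∀ (s : Finset ι) (x y : Z), ∑ i ∈ s, ‖(f x) i - (f y) i‖ ^ 2 ≤ L ^ 2 * ‖x - y‖ ^ 2)
    (x y : Z) : ‖f x - f y‖ ≤ L * ‖x - y‖ := by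
  refine lp.norm_le_of_forall_sum_le (by simp) (by positivity) fun s => ?_
  have := hg s x y
  rw [← mul_pow] at this
  simpa using this

end Combine

/-! ### The target space -/

/-- Index sets. -/
def J : ℕ → Type
  | 0 => List ℕ
  | _ + 1 => Idx

/-- Exponents. -/
noncomputable def Q (k : ℕ) : ℕ → ℝ≥0∞
  | 0 => 2
  | n + 1 => ((2 * NN k n + 2 : ℕ) : ℝ≥0∞)

theorem Q_toReal (k n : ℕ) : 2 ≤ (Q k n).toReal := by
  cases n with
  | zero => simp [Q]
  | succ n =>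
    simp only [Q, ENNReal.toReal_natCast]
    push_cast
    have : (0 : ℝ) ≤ NN k n := Nat.cast_nonneg _
    linarith

theorem Q_ne_top (k n : ℕ) : Q k n ≠ ⊤ := by
  cases n with
  | zero => simp [Q]
  | succ n => exact ENNReal.natCast_ne_top _

instance (k n : ℕ) : Fact (1 ≤ Q k n) := ⟨by
  rw [← ENNReal.ofReal_one, ENNReal.ofReal_le_iff_le_toReal (Q_ne_top k n)]
  linarith [Q_toReal k n]⟩

/-- The factors of the target space. -/
abbrev YK (k n : ℕ) : Type := lp (fun _ : J n => ℝ) (Q k n)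

/-- The target space. -/
abbrev YY : Type := lp (fun k : ℕ => lp (fun n : ℕ => YK k n) 2) 2

theorem refl_YY : Refl YY := by
  refine refl_lp _ 2 (by simp) (by simp) fun k => ?_
  refine refl_lp _ 2 (by simp) (by simp) fun n => ?_
  exact refl_lp _ (Q k n) (by linarith [Q_toReal k n]) (Q_ne_top k n) fun _ => refl_real

theorem ausable_YY : AUSable YY := by
  apply ausable_of_propU
  refine propU_lp_two _ fun k => ?_
  refine propU_lp_two _ fun n => ?_
  exact propU_lp_real (Q k n) (Q_toReal k n) (Q_ne_top k n)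

/-! ### The map at level `k` -/

theorem hh_memℓp (k n : ℕ) (x : XK k) :
    Memℓp (fun i : J (n + 1) => hh k n x i) (Q k (n + 1)) := by
  obtain ⟨A, hA, -⟩ := hh_support k n x
  refine (memℓp_zero ?_).of_exponent_ge zero_le
  exact A.finite_toSet.subset fun i hi => hA i hi

/-- The coordinate maps. -/
noncomputable def gmap (k : ℕ) : (n : ℕ) → XK k → YK k n
  | 0, x => XK.toH2 x
  | n + 1, x => ⟨fun i : J (n + 1) => hh k n x i, hh_memℓp k n x⟩

theorem gmap_zero_sub (k : ℕ) (x y : XK k) :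
    ‖gmap k 0 x - gmap k 0 y‖ = ‖XK.toH2 x - XK.toH2 y‖ := rfl

theorem gmap_succ_coord (k n : ℕ) (x y : XK k) (i : Idx) :
    |hh k n x i - hh k n y i| ≤ ‖gmap k (n + 1) x - gmap k (n + 1) y‖ := by
  have := lp.norm_apply_le_norm (p := Q k (n + 1)) (by
    have := (Fact.out : 1 ≤ Q k (n + 1))
    intro h
    rw [h] at this
    simp at this) (gmap k (n + 1) x - gmap k (n + 1) y) i
  exact this

theorem norm_le_two_mul {ι : Type} (N : ℕ) (v : lp (fun _ : ι => ℝ) ((2 * N + 2 : ℕ) : ℝ≥0∞))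
    (A : Finset ι) (hA : ∀ i, v i ≠ 0 → i ∈ A) (hAc : A.card ≤ 2 * N) (c : ℝ)
    (hc : ∀ i, |v i| ≤ c) (hc0 : 0 ≤ c) : ‖v‖ ≤ 2 * c := by
  classical
  have hp : (((2 * N + 2 : ℕ) : ℝ≥0∞)).toReal = ((2 * N + 2 : ℕ) : ℝ) := ENNReal.toReal_natCast _
  refine lp.norm_le_of_forall_sum_le (by rw [hp]; positivity) (by positivity) fun s => ?_
  rw [hp]
  simp only [Real.rpow_natCast, Real.norm_eq_abs]
  have h1 : ∑ i ∈ s, |v i| ^ (2 * N + 2) = ∑ i ∈ s.filter (· ∈ A), |v i| ^ (2 * N + 2) := by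
    refine (Finset.sum_filter_of_ne ?_).symm
    intro i _ hi
    apply hA
    intro h
    apply hi
    rw [h, abs_zero, zero_pow (by omega)]
  rw [h1]
  calc ∑ i ∈ s.filter (· ∈ A), |v i| ^ (2 * N + 2)
      ≤ ∑ i ∈ s.filter (· ∈ A), c ^ (2 * N + 2) :=
        Finset.sum_le_sum fun i _ => pow_le_pow_left₀ (abs_nonneg _) (hc i) _
    _ = ((s.filter (· ∈ A)).card : ℝ) * c ^ (2 * N + 2) := by
        rw [Finset.sum_const, nsmul_eq_mul]
    _ ≤ 2 ^ (2 * N + 2) * c ^ (2 * N + 2) := by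
        refine mul_le_mul_of_nonneg_right ?_ (by positivity)
        have h2 : (s.filter (· ∈ A)).card ≤ A.card := by
          refine Finset.card_le_card ?_
          intro i hi
          exact (Finset.mem_filter.1 hi).2
        have h3 : (s.filter (· ∈ A)).card ≤ 2 ^ (2 * N + 2) := by
          have := Nat.lt_two_pow_self (n := 2 * N + 2)
          omega
        exact_mod_cast h3
    _ = (2 * c) ^ (2 * N + 2) := by rw [mul_pow]

theorem gmap_succ_lip (k n : ℕ) (x y : XK k) :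
    ‖gmap k (n + 1) x - gmap k (n + 1) y‖ ≤ 2 * ‖x - y‖ := by
  classical
  obtain ⟨A, hA, hAc⟩ := hh_support k n x
  obtain ⟨B, hB, hBc⟩ := hh_support k n y
  refine norm_le_two_mul (ι := Idx) (NN k n) (gmap k (n + 1) x - gmap k (n + 1) y) (A ∪ B) ?_ ?_
    ‖x - y‖ ?_ (norm_nonneg _)
  · intro i hi
    by_contra hc
    rw [Finset.mem_union, not_or] at hc
    apply hi
    have h1 : hh k n x i = 0 := by
      by_contra h
      exact hc.1 (hA i h)
    have h2 : hh k n y i = 0 := by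
      by_contra h
      exact hc.2 (hB i h)
    change hh k n x i - hh k n y i = 0
    rw [h1, h2, sub_zero]
  · refine (Finset.card_union_le _ _).trans ?_
    omega
  · intro i
    exact hh_lip k n x y i

/-- The window of scales. -/
def W (r : ℝ) (n : ℕ) : Prop := (2 : ℝ) ^ n / 2 < r ∧ r < 4 * (2 : ℝ) ^ n

theorem gmap_succ_eq_zero (k n : ℕ) (x : XK k) (h : ¬ W ‖x‖ n) : gmap k (n + 1) x = 0 := by
  ext i
  change hh k n x i = 0
  by_contra hc
  exact h ⟨(hh_ne_zero hc).2.2.2.1, (hh_ne_zero hc).2.2.2.2⟩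

open Classical in
theorem card_W (r : ℝ) (s : Finset ℕ) : (s.filter (W r)).card ≤ 3 := by
  by_cases hne : (s.filter (W r)).Nonempty
  · have hmin := Finset.min'_mem _ hne
    set n0 := (s.filter (W r)).min' hne with hn0
    have hsub : s.filter (W r) ⊆ Finset.Ico n0 (n0 + 3) := by
      intro n hn
      rw [Finset.mem_Ico]
      refine ⟨Finset.min'_le _ _ hn, ?_⟩
      have h1 := (Finset.mem_filter.1 hn).2.1
      have h2 := (Finset.mem_filter.1 hmin).2.2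
      have h3 : (2 : ℝ) ^ n < 2 ^ (n0 + 3) := by
        rw [pow_add]
        linarith
      exact (pow_lt_pow_iff_right₀ (by norm_num : (1 : ℝ) < 2)).1 h3
    refine (Finset.card_le_card hsub).trans ?_
    simp
  · rw [Finset.not_nonempty_iff_eq_empty] at hne
    rw [hne]
    simp

theorem gmap_zero (k n : ℕ) : gmap k n 0 = 0 := by
  cases n with
  | zero => exact map_zero XK.toH2
  | succ n =>
    apply gmap_succ_eq_zero
    rintro ⟨h, -⟩
    rw [norm_zero] at h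
    have : (0 : ℝ) < 2 ^ n / 2 := by positivity
    linarith

theorem gmap_sum (k : ℕ) (s : Finset ℕ) (x y : XK k) :
    ∑ n ∈ s, ‖gmap k n x - gmap k n y‖ ^ 2 ≤ 5 ^ 2 * ‖x - y‖ ^ 2 := by
  classical
  have hs : s ⊆ Finset.range (s.sup id + 1) := by
    intro n hn
    rw [Finset.mem_range]
    exact Nat.lt_succ_of_le (Finset.le_sup (f := id) hn)
  refine (Finset.sum_le_sum_of_subset_of_nonneg hs fun _ _ _ => by positivity).trans ?_
  generalize s.sup id = M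
  rw [Finset.sum_range_succ']
  have h0 : ‖gmap k 0 x - gmap k 0 y‖ ^ 2 ≤ ‖x - y‖ ^ 2 := by
    rw [gmap_zero_sub, ← map_sub]
    exact pow_le_pow_left₀ (norm_nonneg _) (XK.norm_toH2_le _) 2
  have h1 : ∑ n ∈ Finset.range M, ‖gmap k (n + 1) x - gmap k (n + 1) y‖ ^ 2 ≤
      ∑ n ∈ (Finset.range M).filter (W ‖x‖) ∪ (Finset.range M).filter (W ‖y‖),
        (2 * ‖x - y‖) ^ 2 := by
    have hsub : (Finset.range M).filter (W ‖x‖) ∪ (Finset.range M).filter (W ‖y‖) ⊆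
        Finset.range M := by
      intro n hn
      rcases Finset.mem_union.1 hn with hn | hn
      · exact (Finset.mem_filter.1 hn).1
      · exact (Finset.mem_filter.1 hn).1
    rw [← Finset.sum_subset hsub (f := fun n => ‖gmap k (n + 1) x - gmap k (n + 1) y‖ ^ 2)]
    · refine Finset.sum_le_sum fun n _ => ?_
      exact pow_le_pow_left₀ (norm_nonneg _) (gmap_succ_lip k n x y) 2
    · intro n hn hn2
      rw [Finset.mem_union, Finset.mem_filter, Finset.mem_filter, not_or, not_and, not_and] at hn2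
      rw [gmap_succ_eq_zero k n x (hn2.1 hn), gmap_succ_eq_zero k n y (hn2.2 hn)]
      simp
  rw [Finset.sum_const, nsmul_eq_mul] at h1
  have h2 : (((Finset.range M).filter (W ‖x‖) ∪ (Finset.range M).filter (W ‖y‖)).card : ℝ) ≤ 6 := by
    have := (Finset.card_union_le ((Finset.range M).filter (W ‖x‖))
      ((Finset.range M).filter (W ‖y‖))).trans
      (add_le_add (card_W ‖x‖ (Finset.range M)) (card_W ‖y‖ (Finset.range M)))
    exact_mod_cast this
  have h3 := mul_le_mul_of_nonneg_right h2 (by positivity : 0 ≤ (2 * ‖x - y‖) ^ 2)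
  nlinarith

/-- The map of level `k`. -/
noncomputable def fk (k : ℕ) (x : XK k) : lp (fun n : ℕ => YK k n) 2 :=
  ⟨fun n => gmap k n x, combine_mem (gmap k) 5 (gmap_zero k) (gmap_sum k) x⟩

theorem fk_lip (k : ℕ) (x y : XK k) : ‖fk k x - fk k y‖ ≤ 5 * ‖x - y‖ :=
  combine_lip (fk k) 5 (by norm_num) (gmap_sum k) x y

theorem fk_zero (k : ℕ) : fk k 0 = 0 := by
  ext n : 2
  exact gmap_zero k n

theorem gmap_le_fk (k n : ℕ) (x y : XK k) : ‖gmap k n x - gmap k n y‖ ≤ ‖fk k x - fk k y‖ :=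
  lp.norm_apply_le_norm (p := 2) (by norm_num) (fk k x - fk k y) n

theorem fk_lower (k : ℕ) (x y : XK k) : ‖x - y‖ ≤ 8 + 19 * ‖fk k x - fk k y‖ := by
  have ht := norm_nonneg (fk k x - fk k y)
  refine XK.norm_le _ _ ?_ ?_
  · have := gmap_le_fk k 0 x y
    rw [gmap_zero_sub] at this
    rw [map_sub]
    linarith
  · intro u hu
    by_cases hS : S (XK.toH2 (x - y)) u ≤ 8
    · linarith
    · push Not at hS
      obtain ⟨j, hj1, hj2⟩ := exists_nat_pow_near (x := S (XK.toH2 (x - y)) u / 8) (y := 2)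
        (by linarith) (by norm_num)
      rw [pow_succ] at hj2
      obtain ⟨n, i, hni⟩ := hh_lower x y j u hu (by
        rw [map_sub, lp.coeFn_sub] at hj1
        linarith)
      have h1 := (gmap_succ_coord k n x y i).trans (gmap_le_fk k (n + 1) x y)
      linarith

/-! ### The final map -/

/-- The coordinate maps of the final map. -/
noncomputable def Fk (k : ℕ) (x : XX) : lp (fun n : ℕ => YK k n) 2 :=
  ((2 : ℝ) ^ k)⁻¹ • fk k ((2 : ℝ) ^ k • x k)

theorem Fk_zero (k : ℕ) : Fk k 0 = 0 := by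
  unfold Fk
  rw [lp.coeFn_zero, Pi.zero_apply, smul_zero, fk_zero, smul_zero]

theorem Fk_sub (k : ℕ) (x y : XX) : ‖Fk k x - Fk k y‖ =
    ((2 : ℝ) ^ k)⁻¹ * ‖fk k ((2 : ℝ) ^ k • x k) - fk k ((2 : ℝ) ^ k • y k)‖ := by
  unfold Fk
  rw [← smul_sub, norm_smul, Real.norm_eq_abs, abs_of_pos (by positivity)]

theorem scale_sub (k : ℕ) (x y : XX) :
    ‖(2 : ℝ) ^ k • x k - (2 : ℝ) ^ k • y k‖ = (2 : ℝ) ^ k * ‖x k - y k‖ := by
  rw [← smul_sub, norm_smul, Real.norm_eq_abs, abs_of_pos (by positivity)]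

theorem Fk_lip (k : ℕ) (x y : XX) : ‖Fk k x - Fk k y‖ ≤ 5 * ‖x k - y k‖ := by
  rw [Fk_sub]
  have h := fk_lip k ((2 : ℝ) ^ k • x k) ((2 : ℝ) ^ k • y k)
  rw [scale_sub] at h
  have hp : (0 : ℝ) < 2 ^ k := by positivity
  calc ((2 : ℝ) ^ k)⁻¹ * ‖fk k ((2 : ℝ) ^ k • x k) - fk k ((2 : ℝ) ^ k • y k)‖
      ≤ ((2 : ℝ) ^ k)⁻¹ * (5 * (2 ^ k * ‖x k - y k‖)) :=
        mul_le_mul_of_nonneg_left h (by positivity)
    _ = 5 * ‖x k - y k‖ := by field_simp

theorem Fk_lower (k : ℕ) (x y : XX) :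
    ‖x k - y k‖ ≤ 8 * ((2 : ℝ) ^ k)⁻¹ + 19 * ‖Fk k x - Fk k y‖ := by
  rw [Fk_sub]
  have h := fk_lower k ((2 : ℝ) ^ k • x k) ((2 : ℝ) ^ k • y k)
  rw [scale_sub] at h
  have hp : (0 : ℝ) < 2 ^ k := by positivity
  have h2 := mul_le_mul_of_nonneg_left h (by positivity : 0 ≤ ((2 : ℝ) ^ k)⁻¹)
  rw [← mul_assoc, inv_mul_cancel₀ hp.ne', one_mul] at h2
  linarith

theorem Fk_sum (s : Finset ℕ) (x y : XX) :
    ∑ k ∈ s, ‖Fk k x - Fk k y‖ ^ 2 ≤ 5 ^ 2 * ‖x - y‖ ^ 2 := by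
  have h1 : ∑ k ∈ s, ‖(x - y) k‖ ^ 2 ≤ ‖x - y‖ ^ 2 := by
    have := lp.sum_rpow_le_norm_rpow (p := 2) (by simp) (x - y) s
    simpa using this
  calc ∑ k ∈ s, ‖Fk k x - Fk k y‖ ^ 2 ≤ ∑ k ∈ s, 5 ^ 2 * ‖(x - y) k‖ ^ 2 := by
        refine Finset.sum_le_sum fun k _ => ?_
        rw [← mul_pow]
        exact pow_le_pow_left₀ (norm_nonneg _) (Fk_lip k x y) 2
    _ = 5 ^ 2 * ∑ k ∈ s, ‖(x - y) k‖ ^ 2 := by rw [Finset.mul_sum]
    _ ≤ 5 ^ 2 * ‖x - y‖ ^ 2 := by linarith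

/-- The coarse Lipschitz embedding. -/
noncomputable def FF (x : XX) : YY :=
  ⟨fun k => Fk k x, combine_mem Fk 5 Fk_zero Fk_sum x⟩

theorem FF_lip (x y : XX) : ‖FF x - FF y‖ ≤ 5 * ‖x - y‖ :=
  combine_lip FF 5 (by norm_num) Fk_sum x y

theorem geom_four (s : Finset ℕ) : ∑ k ∈ s, (((2 : ℝ) ^ k)⁻¹) ^ 2 ≤ 4 / 3 := by
  have h1 : ∀ k : ℕ, (((2 : ℝ) ^ k)⁻¹) ^ 2 = (1 / 4 : ℝ) ^ k := by
    intro k
    rw [inv_pow, ← pow_mul, mul_comm, pow_mul, one_div, inv_pow]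
    norm_num
  simp only [h1]
  have h2 : HasSum (fun k : ℕ => (1 / 4 : ℝ) ^ k) (1 - 1 / 4)⁻¹ :=
    hasSum_geometric_of_lt_one (by norm_num) (by norm_num)
  have h3 := sum_le_hasSum s (fun k _ => by positivity) h2
  norm_num at h3 ⊢
  exact h3

theorem FF_lower (x y : XX) : ‖x - y‖ ≤ 14 + 27 * ‖FF x - FF y‖ := by
  have ht := norm_nonneg (FF x - FF y)
  refine lp.norm_le_of_forall_sum_le (p := 2) (by simp) (by positivity) fun s => ?_
  have h1 : ∑ k ∈ s, ‖Fk k x - Fk k y‖ ^ 2 ≤ ‖FF x - FF y‖ ^ 2 := by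
    have := lp.sum_rpow_le_norm_rpow (p := 2) (by simp) (FF x - FF y) s
    simp only [ENNReal.toReal_ofNat, Real.rpow_ofNat] at this
    exact this
  have h2 : ∀ k ∈ s, ‖(x - y) k‖ ^ 2 ≤
      128 * (((2 : ℝ) ^ k)⁻¹) ^ 2 + 722 * ‖Fk k x - Fk k y‖ ^ 2 := by
    intro k _
    have h3 := Fk_lower k x y
    have h4 : ‖(x - y) k‖ ≤ 8 * ((2 : ℝ) ^ k)⁻¹ + 19 * ‖Fk k x - Fk k y‖ := h3
    have h5 := pow_le_pow_left₀ (norm_nonneg _) h4 2
    nlinarith [sq_nonneg (8 * ((2 : ℝ) ^ k)⁻¹ - 19 * ‖Fk k x - Fk k y‖)]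
  have h6 := Finset.sum_le_sum h2
  rw [Finset.sum_add_distrib, ← Finset.mul_sum, ← Finset.mul_sum] at h6
  have h7 := geom_four s
  have h8 : ∑ k ∈ s, ‖(x - y) k‖ ^ 2 ≤ (14 + 27 * ‖FF x - FF y‖) ^ 2 := by nlinarith
  simpa using h8

end Pool.Agent.Helper91.CLR
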